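import Mathlib

/-!
# Pseudo-Riemannian geometry on `ℝ⁴` in coordinates

Points of `ℝ⁴` are functions `p : Fin 4 → ℝ`, with coordinates
`(t, x, y, z) = (p 0, p 1, p 2, p 3)`.  A metric is given by the matrix of its components.
-/

open scoped ContDiff Matrix

namespace Pool.Agent.Work.MP_d87c46_gt

/-- `ℝ⁴`, with coordinates `(t, x, y, z) = (p 0, p 1, p 2, p 3)`. -/
abbrev R4 : Type := Fin 4 → ℝ

/-- The partial derivative `∂ᵢ f`. -/
noncomputable def pd (i : Fin 4) (f : R4 → ℝ) (p : R4) : ℝ :=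
  fderiv ℝ f p (Pi.single i 1)

/-- A field of `4 × 4` matrices `g = (g_{ij})`, the components of a `(0,2)`-tensor field. -/
abbrev MatrixField : Type := R4 → Matrix (Fin 4) (Fin 4) ℝ

/-- `g` is a smooth Lorentzian metric on `ℝ⁴`: smooth, symmetric and of signature `(-,+,+,+)`
at every point. -/
structure IsLorentzianMetric (g : MatrixField) : Prop where
  smooth : ∀ i j, ContDiff ℝ ∞ fun p => g p i j
  symm : ∀ p i j, g p i j = g p j i
  signature : ∀ p, ∃ B : Matrix (Fin 4) (Fin 4) ℝ, IsUnit B ∧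
    Bᵀ * g p * B = Matrix.diagonal ![-1, 1, 1, 1]

/-- The Christoffel symbols
`Γᵏᵢⱼ = ½ Σₗ gᵏˡ (∂ᵢ gⱼₗ + ∂ⱼ gᵢₗ - ∂ₗ gᵢⱼ)` of the Levi-Civita connection. -/
noncomputable def christoffel (g : MatrixField) (k i j : Fin 4) (p : R4) : ℝ :=
  1 / 2 * ∑ l, (g p)⁻¹ k l * (pd i (fun q => g q j l) p + pd j (fun q => g q i l) p
    - pd l (fun q => g q i j) p)

/-- The curvature tensor
`Rˡₖᵢⱼ = ∂ᵢ Γˡⱼₖ - ∂ⱼ Γˡᵢₖ + Σₘ (Γˡᵢₘ Γᵐⱼₖ - Γˡⱼₘ Γᵐᵢₖ)`. -/
noncomputable def riemann (g : MatrixField) (l k i j : Fin 4) (p : R4) : ℝ :=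
  pd i (christoffel g l j k) p - pd j (christoffel g l i k) p
    + ∑ m, (christoffel g l i m p * christoffel g m j k p
      - christoffel g l j m p * christoffel g m i k p)

/-- The Ricci tensor `Ricₖⱼ = Σᵢ Rⁱₖᵢⱼ`. -/
noncomputable def ricci (g : MatrixField) (k j : Fin 4) (p : R4) : ℝ :=
  ∑ i, riemann g i k i j p

/-- The scalar curvature `Sc = Σ gᵏʲ Ricₖⱼ`. -/
noncomputable def scalarCurvature (g : MatrixField) (p : R4) : ℝ :=
  ∑ k, ∑ j, (g p)⁻¹ k j * ricci g k j p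

/-- The Schouten tensor `P = (1/(n-2)) (Ric - Sc/(2(n-1)) g)` for `n = 4`. -/
noncomputable def schouten (g : MatrixField) (i j : Fin 4) (p : R4) : ℝ :=
  1 / 2 * (ricci g i j p - scalarCurvature g p / 6 * g p i j)

/-- The Weyl tensor `Wₗₖᵢⱼ = Rₗₖᵢⱼ - (gₗᵢ Pₖⱼ - gₗⱼ Pₖᵢ + gₖⱼ Pₗᵢ - gₖᵢ Pₗⱼ)`,
where `Rₗₖᵢⱼ = Σₘ gₗₘ Rᵐₖᵢⱼ`. -/
noncomputable def weyl (g : MatrixField) (l k i j : Fin 4) (p : R4) : ℝ :=
  (∑ m, g p l m * riemann g m k i j p)
    - (g p l i * schouten g k j p - g p l j * schouten g k i p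
      + g p k j * schouten g l i p - g p k i * schouten g l j p)

/-- The Weyl tensor of `g` does not vanish at `p`. -/
def WeylNonzeroAt (g : MatrixField) (p : R4) : Prop :=
  ∃ l k i j, weyl g l k i j p ≠ 0

/-- The second covariant derivative `∇ᵢ∇ⱼ σ = ∂ᵢ∂ⱼ σ - Σₖ Γᵏᵢⱼ ∂ₖ σ`. -/
noncomputable def hessian (g : MatrixField) (σ : R4 → ℝ) (i j : Fin 4) (p : R4) : ℝ :=
  pd i (pd j σ) p - ∑ k, christoffel g k i j p * pd k σ p

/-- The tensor `∇∇σ + P σ`. -/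
noncomputable def aeTensor (g : MatrixField) (σ : R4 → ℝ) (i j : Fin 4) (p : R4) : ℝ :=
  hessian g σ i j p + schouten g i j p * σ p

/-- `σ` is an almost Einstein scale of `g`: `σ` is smooth and the trace-free part
`A - ¼ (tr_g A) g` of `A = ∇∇σ + P σ` vanishes. -/
def IsAlmostEinsteinScale (g : MatrixField) (σ : R4 → ℝ) : Prop :=
  ContDiff ℝ ∞ σ ∧ ∀ p i j, aeTensor g σ i j p
    - 1 / 4 * (∑ k, ∑ l, (g p)⁻¹ k l * aeTensor g σ k l p) * g p i j = 0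

lemma pd_add' (i : Fin 4) {f k : R4 → ℝ} (hf : ContDiff ℝ ∞ f) (hk : ContDiff ℝ ∞ k) :
    pd i (f + k) = pd i f + pd i k := by
  ext p
  simp only [pd, Pi.add_apply]
  rw [fderiv_add (hf.differentiable (by simp) p) (hk.differentiable (by simp) p)]
  rfl

lemma pd_smul' (i : Fin 4) (c : ℝ) {f : R4 → ℝ} (hf : ContDiff ℝ ∞ f) :
    pd i (c • f) = c • pd i f := by
  ext p
  simp only [pd, Pi.smul_apply]
  rw [fderiv_const_smul (hf.differentiable (by simp) p)]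
  rfl

lemma contDiff_pd' (i : Fin 4) {f : R4 → ℝ} (hf : ContDiff ℝ ∞ f) : ContDiff ℝ ∞ (pd i f) :=
  (hf.fderiv_right (m := ∞) (by simp)).clm_apply contDiff_const

lemma aeTensor_add (g : MatrixField) {σ τ : R4 → ℝ} (hσ : ContDiff ℝ ∞ σ) (hτ : ContDiff ℝ ∞ τ)
    (i j : Fin 4) (p : R4) :
    aeTensor g (σ + τ) i j p = aeTensor g σ i j p + aeTensor g τ i j p := by
  simp only [aeTensor, hessian]
  rw [pd_add' j hσ hτ, pd_add' i (contDiff_pd' j hσ) (contDiff_pd' j hτ)]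
  simp only [pd_add' _ hσ hτ, Pi.add_apply, mul_add, Finset.sum_add_distrib]
  ring

lemma aeTensor_smul (g : MatrixField) (c : ℝ) {σ : R4 → ℝ} (hσ : ContDiff ℝ ∞ σ)
    (i j : Fin 4) (p : R4) :
    aeTensor g (c • σ) i j p = c * aeTensor g σ i j p := by
  simp only [aeTensor, hessian]
  rw [pd_smul' j c hσ, pd_smul' i c (contDiff_pd' j hσ)]
  simp only [pd_smul' _ c hσ, Pi.smul_apply, smul_eq_mul, mul_sub, mul_add, Finset.mul_sum]
  simp only [mul_left_comm]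

/-- The real vector space of almost Einstein scales of `g` on `ℝ⁴`. -/
noncomputable def almostEinsteinScales (g : MatrixField) : Submodule ℝ (R4 → ℝ) where
  carrier := {σ | IsAlmostEinsteinScale g σ}
  zero_mem' := by
    refine ⟨contDiff_const, fun p i j => ?_⟩
    have h0 : ∀ k l, aeTensor g 0 k l p = 0 := fun k l => by
      have := aeTensor_smul g 0 (σ := 0) contDiff_const k l p
      simpa using this
    simp [h0]
  add_mem' {σ τ} hσ hτ := by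
    refine ⟨hσ.1.add hτ.1, fun p i j => ?_⟩
    have h1 := hσ.2 p i j
    have h2 := hτ.2 p i j
    simp only [aeTensor_add g hσ.1 hτ.1, mul_add, Finset.sum_add_distrib]
    linear_combination h1 + h2
  smul_mem' c σ hσ := by
    refine ⟨contDiff_const.smul hσ.1, fun p i j => ?_⟩
    have h1 := hσ.2 p i j
    have h2 : ∀ k l, (g p)⁻¹ k l * (c * aeTensor g σ k l p)
        = c * ((g p)⁻¹ k l * aeTensor g σ k l p) := fun k l => by ring
    simp only [aeTensor_smul g c hσ.1, h2, ← Finset.mul_sum]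
    linear_combination c * h1

/-- `(ℝ⁴, g)` near `p` is conformally isomorphic to an open subset of `(ℝ⁴, g')`: there are an open
neighbourhood `U` of `p`, a diffeomorphism `F` of `U` onto an open subset of `ℝ⁴` (with smooth
inverse `G`) and a smooth function `φ > 0` on `U` with `F^* g' = φ² g` on `U`. -/
def ConformallyIsomorphicNear (g g' : MatrixField) (p : R4) : Prop :=
  ∃ (U : Set R4) (F G : R4 → R4) (φ : R4 → ℝ), IsOpen U ∧ p ∈ U ∧
    ContDiffOn ℝ ∞ F U ∧ IsOpen (F '' U) ∧ ContDiffOn ℝ ∞ G (F '' U) ∧ (∀ q ∈ U, G (F q) = q) ∧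
    ContDiffOn ℝ ∞ φ U ∧ (∀ q ∈ U, 0 < φ q) ∧
    ∀ q ∈ U, ∀ i j,
      ∑ a, ∑ b, g' (F q) a b * pd i (fun r => F r a) q * pd j (fun r => F r b) q
        = φ q ^ 2 * g q i j

/-- The metric `g_pp = e^{-√2 t} (x² dt² + 2 dt dz + dx² + dy²)`. -/
noncomputable def gpp : MatrixField := fun p =>
  Real.exp (-(√2 * p 0)) • !![p 1 ^ 2, 0, 0, 1; 0, 1, 0, 0; 0, 0, 1, 0; 1, 0, 0, 0]

/-- The metric `h dt² + 2 dt dz + dx² + dy²`. -/
def ppWave (h : R4 → ℝ) : MatrixField := fun p =>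
  !![h p, 0, 0, 1; 0, 1, 0, 0; 0, 0, 1, 0; 1, 0, 0, 0]

/-- The function `cos(w t) (x² - y²) - 2 sin(w t) x y`. -/
noncomputable def rotProfile (w : ℝ) (p : R4) : ℝ :=
  Real.cos (w * p 0) * (p 1 ^ 2 - p 2 ^ 2) - 2 * (Real.sin (w * p 0) * (p 1 * p 2))

/-- The metric `g_w = (cos(w t) (x² - y²) - 2 sin(w t) x y) dt² + 2 dt dz + dx² + dy²`. -/
noncomputable def gRot (w : ℝ) : MatrixField := ppWave (rotProfile w)

end Pool.Agent.Work.MP_d87c46_gt
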