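import Mathlib

/-!
Differential-algebraic lemmas: a commutative ring with four commuting derivations
`Dt, Dx, Dy, Dz`.
-/

namespace Pool.Agent.Work.MP_d87c46_gt

variable {A : Type*} [CommRing A] [Algebra ℝ A]

lemma der_two_mul (D : Derivation ℝ A A) (f : A) : D (2 * f) = 2 * D f := by
  rw [two_mul, map_add, two_mul]

lemma der_two (D : Derivation ℝ A A) : D (2 : A) = 0 := by
  have := D.map_natCast 2
  simpa using this

lemma two_cancel {z : A} (h : 2 * z = 0) : z = 0 := by
  have h1 : algebraMap ℝ A (1 / 2) * (2 * z) = z := by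
    have h2 : (2 : A) = algebraMap ℝ A 2 := (map_ofNat (algebraMap ℝ A) 2).symm
    rw [h2, ← mul_assoc, ← map_mul]
    norm_num
  rw [← h1, h, mul_zero]

/-- First consequences of the conformal Killing equations of a pp-wave
`h dt² + 2 dt dz + dx² + dy²`, `h = h(t,x,y)` harmonic in `x, y`: with components
`ξ = X^t`, `a = X^x`, `b = X^y`, `c = X^z`. -/
theorem ckv_first (Dt Dx Dy Dz : Derivation ℝ A A)
    (hxt : ∀ f, Dx (Dt f) = Dt (Dx f)) (hyt : ∀ f, Dy (Dt f) = Dt (Dy f))
    (hzt : ∀ f, Dz (Dt f) = Dt (Dz f)) (hyx : ∀ f, Dy (Dx f) = Dx (Dy f))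
    (hzx : ∀ f, Dz (Dx f) = Dx (Dz f)) (hzy : ∀ f, Dz (Dy f) = Dy (Dz f))
    (h ξ a b c lam : A) (hz : Dz h = 0) (hharm : Dx (Dx h) + Dy (Dy h) = 0)
    (e1 : Dz ξ = 0) (e2 : Dz a = - Dx ξ) (e3 : Dz b = - Dy ξ)
    (e4 : 2 * Dx a = lam) (e4' : 2 * Dy b = lam) (e5 : Dx b = - Dy a)
    (e6 : Dt ξ + Dz c = lam) (e7 : h * Dx ξ + Dx c + Dt a = 0)
    (e8 : h * Dy ξ + Dy c + Dt b = 0)
    (e9 : ξ * Dt h + a * Dx h + b * Dy h + 2 * (h * Dt ξ) + 2 * Dt c = lam * h) :
    Dx (Dx h) * Dx ξ + Dx (Dy h) * Dy ξ = 0 ∧ Dx (Dy h) * Dx ξ - Dx (Dx h) * Dy ξ = 0 := by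
  have s1 : 2 * Dx (Dx ξ) = 2 * Dy (Dy ξ) := by
    have k1 := congrArg Dz e4
    have k2 := congrArg Dz e4'
    rw [der_two_mul, hzx, e2, map_neg] at k1
    rw [der_two_mul, hzy, e3, map_neg] at k2
    linear_combination k2 - k1
  have s1' : Dx (Dx ξ) = Dy (Dy ξ) := by
    have : 2 * (Dx (Dx ξ) - Dy (Dy ξ)) = 0 := by linear_combination s1
    have := two_cancel this
    linear_combination this
  have s2 : Dx (Dy ξ) = 0 := by
    have k1 := congrArg Dz e5
    rw [hzx, map_neg, hzy, e3, e2, map_neg, map_neg, hyx] at k1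
    apply two_cancel
    linear_combination -k1
  have s3 : Dz lam = -2 * Dx (Dx ξ) := by
    have k1 := congrArg Dz e4
    rw [der_two_mul, hzx, e2, map_neg] at k1
    linear_combination -k1
  have s4x : Dx lam = 2 * Dt (Dx ξ) := by
    have k1 := congrArg Dx e6
    have k2 := congrArg Dz e7
    simp only [map_add, map_zero, Derivation.leibniz, smul_eq_mul, hxt, hzx, hzt, hz, e1, e2,
      map_neg] at k1 k2
    linear_combination -k1 + k2
  have s4y : Dy lam = 2 * Dt (Dy ξ) := by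
    have k1 := congrArg Dy e6
    have k2 := congrArg Dz e8
    simp only [map_add, map_zero, Derivation.leibniz, smul_eq_mul, hyt, hzy, hzt, hz, e1, e3,
      map_neg] at k1 k2
    linear_combination -k1 + k2
  have sE1 : Dy h * Dx ξ - Dx h * Dy ξ + 2 * Dt (Dy a) = 0 := by
    have k1 := congrArg Dy e7
    have k2 := congrArg Dx e8
    simp only [map_add, map_zero, Derivation.leibniz, smul_eq_mul, hyt, hxt, hyx, e5,
      map_neg] at k1 k2
    linear_combination k1 - k2
  have sE2 : -(Dx ξ * Dx h) - Dy ξ * Dy h + 2 * Dt lam - 2 * Dt (Dt ξ) + 2 * (Dx (Dx ξ) * h)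
      = 0 := by
    have k1 := congrArg Dz e9
    have k2 := congrArg Dt e6
    simp only [map_add, map_zero, Derivation.leibniz, smul_eq_mul, der_two, hzt, hzx, hzy, hz,
      e1, e2, e3, s3, map_neg] at k1 k2
    linear_combination k1 - 2 * k2
  have s5 : Dx (Dx (Dx ξ)) = 0 := by
    rw [s1', ← hyx, s2, map_zero]
  have s5' : Dy (Dx (Dx ξ)) = 0 := by
    rw [hyx, hyx, s2, map_zero]
  have hyy : Dy (Dy h) = - Dx (Dx h) := by linear_combination hharm
  have haxy : 2 * Dx (Dy a) = 2 * Dt (Dy ξ) := by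
    have k1 := congrArg Dy e4
    rw [der_two_mul, hyx, s4y] at k1
    exact k1
  have hayy : 2 * Dy (Dy a) = -2 * Dt (Dx ξ) := by
    have k1 := congrArg Dy e5
    have k2 := congrArg Dx e4'
    rw [map_neg, hyx] at k1
    rw [der_two_mul, s4x] at k2
    linear_combination 2 * k1 - k2
  constructor
  · have k1 := congrArg Dy sE1
    have k2 := congrArg Dx sE2
    have k3 := congrArg Dt hayy
    have k4 := congrArg Dt s4x
    simp only [map_add, map_sub, map_zero, Derivation.leibniz, smul_eq_mul, der_two, hyt,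
      hxt, hyx, hyy, s5, s2, map_neg, neg_mul, ← s1'] at k1 k2 k3 k4
    apply two_cancel
    linear_combination -k1 - k2 + k3 + 2 * k4
  · have k1 := congrArg Dx sE1
    have k2 := congrArg Dy sE2
    have k3 := congrArg Dt haxy
    have k4 := congrArg Dt s4y
    simp only [map_add, map_sub, map_zero, Derivation.leibniz, smul_eq_mul, der_two, hyt,
      hxt, hyx, hyy, s5', s2, map_neg, neg_mul, ← s1'] at k1 k2 k3 k4
    apply two_cancel
    linear_combination k1 - k2 - k3 + 2 * k4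

/-- Second consequences: if moreover `ξ_x = ξ_y = 0` and the field is null, then
`h_xx ξ² = h_xy ξ² = 0`. -/
theorem ckv_second (Dt Dx Dy Dz : Derivation ℝ A A)
    (hxt : ∀ f, Dx (Dt f) = Dt (Dx f)) (hyt : ∀ f, Dy (Dt f) = Dt (Dy f))
    (hzt : ∀ f, Dz (Dt f) = Dt (Dz f)) (hyx : ∀ f, Dy (Dx f) = Dx (Dy f))
    (hzx : ∀ f, Dz (Dx f) = Dx (Dz f)) (_hzy : ∀ f, Dz (Dy f) = Dy (Dz f))
    (h ξ a b c lam : A) (hharm : Dx (Dx h) + Dy (Dy h) = 0)
    (e1 : Dz ξ = 0) (e2 : Dz a = 0) (e3 : Dz b = 0) (f1 : Dx ξ = 0) (f2 : Dy ξ = 0)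
    (e4 : 2 * Dx a = lam) (e4' : 2 * Dy b = lam) (e5 : Dx b = - Dy a)
    (e6 : Dt ξ + Dz c = lam) (e7 : Dx c + Dt a = 0)
    (e8 : Dy c + Dt b = 0)
    (hnull : h * ξ ^ 2 + 2 * ξ * c + a ^ 2 + b ^ 2 = 0) :
    Dx (Dx h) * ξ ^ 2 = 0 ∧ Dx (Dy h) * ξ ^ 2 = 0 := by
  have g1 : Dx lam = 0 := by
    have k1 := congrArg Dx e6
    have k2 := congrArg Dz e7
    simp only [map_add, map_zero, hxt, hzx, hzt, e1, e2, f1] at k1 k2
    linear_combination -k1 + k2
  have g2 : Dy lam = 0 := by
    have k1 := congrArg Dy e6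
    have k2 := congrArg Dz e8
    simp only [map_add, map_zero, hyt, _hzy, hzt, e1, e3, f2] at k1 k2
    linear_combination -k1 + k2
  have axx : Dx (Dx a) = 0 := by
    have k1 := congrArg Dx e4
    rw [der_two_mul, g1] at k1
    exact two_cancel k1
  have axy : Dx (Dy a) = 0 := by
    have k1 := congrArg Dy e4
    rw [der_two_mul, g2, hyx] at k1
    exact two_cancel k1
  have bxy : Dx (Dy b) = 0 := by
    have k1 := congrArg Dx e4'
    rw [der_two_mul, g1] at k1
    exact two_cancel k1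
  have byy : Dy (Dy b) = 0 := by
    have k1 := congrArg Dy e4'
    rw [der_two_mul, g2] at k1
    exact two_cancel k1
  have bxx : Dx (Dx b) = 0 := by
    rw [e5, map_neg, axy, neg_zero]
  have ayy : Dy (Dy a) = 0 := by
    have k1 := congrArg Dy e5
    rw [hyx, bxy, map_neg] at k1
    linear_combination k1
  have aty : Dt (Dy a) = 0 := by
    have k1 := congrArg Dy e7
    have k2 := congrArg Dx e8
    simp only [map_add, map_zero, hyt, hxt, hyx, e5, map_neg] at k1 k2
    apply two_cancel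
    linear_combination k1 - k2
  have cxy : Dx (Dy c) = 0 := by
    have k1 := congrArg Dy e7
    simp only [map_add, map_zero, hyt, hyx, aty] at k1
    linear_combination k1
  have cxx : 2 * Dx (Dx c) = - Dt lam := by
    have k1 := congrArg Dx e7
    have k2 := congrArg Dt e4
    simp only [map_add, map_zero, hxt, der_two_mul] at k1 k2
    linear_combination 2 * k1 - k2
  have cyy : 2 * Dy (Dy c) = - Dt lam := by
    have k1 := congrArg Dy e8
    have k2 := congrArg Dt e4'
    simp only [map_add, map_zero, hyt, der_two_mul] at k1 k2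
    linear_combination 2 * k1 - k2
  have hn : h * (ξ * ξ) + 2 * (ξ * c) + a * a + b * b = 0 := by linear_combination hnull
  have nx := congrArg Dx hn
  have ny := congrArg Dy hn
  have nxx := congrArg Dx nx
  have nxy := congrArg Dx ny
  have nyy := congrArg Dy ny
  have hyy : Dy (Dy h) = - Dx (Dx h) := by linear_combination hharm
  simp only [map_add, map_zero, Derivation.leibniz, smul_eq_mul, der_two, f1, f2, axx, axy, bxx,
    bxy, ayy, byy, hyx, e5, map_neg, hyy] at nxx nxy nyy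
  constructor
  · apply two_cancel
    linear_combination nxx - nyy - ξ * cxx + ξ * cyy - (Dx a + Dy b) * (e4 - e4')
  · linear_combination nxy - 2 * ξ * cxy + Dy a * (e4' - e4)

end Pool.Agent.Work.MP_d87c46_gt
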