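import Mathlib
import Pool.Agent.Work.MP_d87c46_gt.Defs

open scoped ContDiff Topology
open TopologicalSpace Filter

namespace Pool.Agent.Work.MP_d87c46_gt

/-- Extension by zero of a function on an open set. -/
noncomputable def ext0 (U : Opens R4) (f : U → ℝ) : R4 → ℝ :=
  Function.extend Subtype.val f 0

lemma ext0_apply (U : Opens R4) (f : U → ℝ) (x : U) : ext0 U f x = f x :=
  Subtype.val_injective.extend_apply f 0 x

lemma ext0_apply' (U : Opens R4) (f : U → ℝ) {x : R4} (hx : x ∈ U) : ext0 U f x = f ⟨x, hx⟩ :=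
  ext0_apply U f ⟨x, hx⟩

lemma ext0_not_mem (U : Opens R4) (f : U → ℝ) {x : R4} (hx : x ∉ U) : ext0 U f x = 0 := by
  rw [ext0, Function.extend_apply']
  · rfl
  · rintro ⟨a, rfl⟩
    exact hx a.2

lemma ext0_add (U : Opens R4) (f g : U → ℝ) : ext0 U (f + g) = ext0 U f + ext0 U g := by
  ext x
  by_cases hx : x ∈ U
  · simp [ext0_apply' U _ hx]
  · simp [ext0_not_mem U _ hx]

lemma ext0_mul (U : Opens R4) (f g : U → ℝ) : ext0 U (f * g) = ext0 U f * ext0 U g := by
  ext x
  by_cases hx : x ∈ U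
  · simp [ext0_apply' U _ hx]
  · simp [ext0_not_mem U _ hx]

lemma ext0_smul (U : Opens R4) (r : ℝ) (f : U → ℝ) : ext0 U (r • f) = r • ext0 U f := by
  ext x
  by_cases hx : x ∈ U
  · simp [ext0_apply' U _ hx]
  · simp [ext0_not_mem U _ hx]

lemma ext0_eventuallyEq (U : Opens R4) (f : U → ℝ) (F : R4 → ℝ) (hF : ∀ x : U, F x = f x)
    (x : U) : ext0 U f =ᶠ[𝓝 (x : R4)] F := by
  filter_upwards [U.isOpen.mem_nhds x.2] with y hy
  rw [ext0_apply' U f hy, ← hF ⟨y, hy⟩]

/-- The algebra of smooth functions on an open set. -/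
noncomputable def SA (U : Opens R4) : Subalgebra ℝ (U → ℝ) where
  carrier := {f | ∀ x : U, ContDiffAt ℝ ∞ (ext0 U f) x}
  mul_mem' {f g} hf hg x := by
    rw [ext0_mul]; exact (hf x).mul (hg x)
  add_mem' {f g} hf hg x := by
    rw [ext0_add]; exact (hf x).add (hg x)
  algebraMap_mem' r x := by
    have h1 : ext0 U (algebraMap ℝ (U → ℝ) r) =ᶠ[𝓝 (x : R4)] fun _ => r :=
      ext0_eventuallyEq U _ (fun _ => r) (fun _ => rfl) x
    exact (contDiffAt_const).congr_of_eventuallyEq h1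

lemma contDiffAt_pd {f : R4 → ℝ} {x : R4} (hf : ContDiffAt ℝ ∞ f x) (i : Fin 4) :
    ContDiffAt ℝ ∞ (pd i f) x := by
  have h1 : ContDiffAt ℝ ∞ (fderiv ℝ f) x := hf.fderiv_right (m := ∞) (by simp)
  exact h1.clm_apply contDiffAt_const

lemma pd_congr {f g : R4 → ℝ} {x : R4} (h : f =ᶠ[𝓝 x] g) (i : Fin 4) : pd i f x = pd i g x := by
  rw [pd, pd, h.fderiv_eq]

lemma pd_eventuallyEq {f g : R4 → ℝ} {x : R4} (h : f =ᶠ[𝓝 x] g) (i : Fin 4) :
    pd i f =ᶠ[𝓝 x] pd i g := by
  filter_upwards [h.eventuallyEq_nhds] with y hy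
  exact pd_congr hy i

lemma pd_comm {f : R4 → ℝ} {x : R4} (hf : ContDiffAt ℝ ∞ f x) (i j : Fin 4) :
    pd i (pd j f) x = pd j (pd i f) x := by
  have h2 : ContDiffAt ℝ 2 f x := hf.of_le (WithTop.coe_le_coe.2 (le_top : (2 : ℕ∞) ≤ ⊤))
  have hsymm : IsSymmSndFDerivAt ℝ f x := h2.isSymmSndFDerivAt (by simp)
  have hd : DifferentiableAt ℝ (fderiv ℝ f) x :=
    (hf.fderiv_right (m := ∞) (by simp)).differentiableAt (by simp)
  have key : ∀ a b : Fin 4, pd a (pd b f) x = fderiv ℝ (fderiv ℝ f) x (Pi.single a 1)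
      (Pi.single b 1) := by
    intro a b
    have h1 : pd b f = fun y => (fderiv ℝ f y) (Pi.single b 1) := rfl
    rw [pd, h1, fderiv_clm_apply hd (differentiableAt_const _)]
    simp
  rw [key, key]
  exact hsymm.eq _ _

/-- The partial derivative as a derivation of `SA U`. -/
noncomputable def dd (U : Opens R4) (i : Fin 4) : Derivation ℝ (SA U) (SA U) :=
  Derivation.mk'
    { toFun := fun f => ⟨fun x => pd i (ext0 U f.1) x, fun x =>
        (contDiffAt_pd (f.2 x) i).congr_of_eventuallyEq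
          (ext0_eventuallyEq U _ _ (fun _ => rfl) x)⟩
      map_add' := fun f g => by
        ext x
        have hf := (f.2 x).differentiableAt (by simp)
        have hg := (g.2 x).differentiableAt (by simp)
        simp only [pd]
        change fderiv ℝ (ext0 U (f.1 + g.1)) x _ = _
        rw [ext0_add, fderiv_add hf hg]
        rfl
      map_smul' := fun r f => by
        ext x
        have hf := (f.2 x).differentiableAt (by simp)
        simp only [pd]
        change fderiv ℝ (ext0 U (r • f.1)) x _ = _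
        rw [ext0_smul, fderiv_const_smul hf]
        rfl }
    (fun f g => by
        ext x
        have hf := (f.2 x).differentiableAt (by simp)
        have hg := (g.2 x).differentiableAt (by simp)
        change fderiv ℝ (ext0 U (f.1 * g.1)) x _ = _
        rw [ext0_mul, fderiv_mul hf hg]
        change _ = f.1 x * fderiv ℝ (ext0 U g.1) x _ + g.1 x * fderiv ℝ (ext0 U f.1) x _
        rw [← ext0_apply U f.1 x, ← ext0_apply U g.1 x]
        rfl)

lemma dd_apply (U : Opens R4) (i : Fin 4) (f : SA U) (x : U) :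
    (dd U i f).1 x = pd i (ext0 U f.1) x := rfl

lemma dd_comm (U : Opens R4) (i j : Fin 4) (f : SA U) : dd U i (dd U j f) = dd U j (dd U i f) := by
  ext x
  rw [dd_apply, dd_apply]
  have h : ∀ k : Fin 4, ext0 U (dd U k f).1 =ᶠ[𝓝 (x : R4)] pd k (ext0 U f.1) := fun k =>
    ext0_eventuallyEq U _ (pd k (ext0 U f.1)) (fun _ => rfl) x
  rw [pd_congr (h j) i, pd_congr (h i) j]
  exact pd_comm (f.2 x) i j

/-- The restriction to `U` of a function smooth on `U`. -/
noncomputable def toSA (U : Opens R4) (f : R4 → ℝ) (hf : ContDiffOn ℝ ∞ f U) : SA U :=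
  ⟨fun x => f x, fun x => (hf.contDiffAt (U.isOpen.mem_nhds x.2)).congr_of_eventuallyEq
    (ext0_eventuallyEq U _ f (fun _ => rfl) x)⟩

lemma contDiffOn_pd {U : Opens R4} {f : R4 → ℝ} (hf : ContDiffOn ℝ ∞ f U) (i : Fin 4) :
    ContDiffOn ℝ ∞ (pd i f) U := fun x hx =>
  (contDiffAt_pd (hf.contDiffAt (U.isOpen.mem_nhds hx)) i).contDiffWithinAt

lemma dd_toSA (U : Opens R4) (f : R4 → ℝ) (hf : ContDiffOn ℝ ∞ f U) (i : Fin 4) :
    dd U i (toSA U f hf) = toSA U (pd i f) (contDiffOn_pd hf i) := by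
  ext x
  rw [dd_apply]
  exact pd_congr (ext0_eventuallyEq U _ _ (fun _ => rfl) x) i

end Pool.Agent.Work.MP_d87c46_gt
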