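import Mathlib
import Pool.Agent.Work.MP_d87c46_gt.Defs
import Pool.Agent.Work.MP_d87c46_gt.SmoothAlg

open scoped ContDiff Topology Matrix

namespace Pool.Agent.Work.MP_d87c46_gt

lemma pd_const (i : Fin 4) (c : ℝ) (p : R4) : pd i (fun _ => c) p = 0 := by
  simp [pd]

lemma pd_const_mul (i : Fin 4) (c : ℝ) {f : R4 → ℝ} {p : R4} (hf : DifferentiableAt ℝ f p) :
    pd i (fun q => c * f q) p = c * pd i f p := by
  rw [pd, fderiv_const_mul hf, pd]
  rfl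

lemma ppWave_inv (h : R4 → ℝ) (p : R4) :
    (ppWave h p)⁻¹ = !![0, 0, 0, 1; 0, 1, 0, 0; 0, 0, 1, 0; 1, 0, 0, -h p] := by
  apply Matrix.inv_eq_right_inv
  rw [ppWave]
  ext i j
  fin_cases i <;> fin_cases j <;> simp [Matrix.mul_apply, Fin.sum_univ_four]

/-- Coefficients of the Christoffel symbols of a pp-wave. -/
noncomputable def cc : Fin 4 → Fin 4 → Fin 4 → ℝ
  | 1, 0, 0 => -(1 / 2)
  | 2, 0, 0 => -(1 / 2)
  | 3, 0, 0 => 1 / 2
  | 3, 0, 1 => 1 / 2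
  | 3, 1, 0 => 1 / 2
  | 3, 0, 2 => 1 / 2
  | 3, 2, 0 => 1 / 2
  | _, _, _ => 0

/-- The variable of differentiation in the Christoffel symbols of a pp-wave. -/
def ci : Fin 4 → Fin 4 → Fin 4 → Fin 4
  | 1, 0, 0 => 1
  | 2, 0, 0 => 2
  | 3, 0, 0 => 0
  | 3, 0, 1 => 1
  | 3, 1, 0 => 1
  | 3, 0, 2 => 2
  | 3, 2, 0 => 2
  | _, _, _ => 0

lemma christoffel_ppWave (h : R4 → ℝ) (hz : ∀ q, pd 3 h q = 0) (k i j : Fin 4) :
    christoffel (ppWave h) k i j = fun p => cc k i j * pd (ci k i j) h p := by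
  ext p
  have hc : ∀ (a : Fin 4), pd a (fun _ => (0 : ℝ)) p = 0 := fun a => pd_const a 0 p
  have hc1 : ∀ (a : Fin 4), pd a (fun _ => (1 : ℝ)) p = 0 := fun a => pd_const a 1 p
  have hh : (fun q => h q) = h := rfl
  rw [christoffel, ppWave_inv]
  fin_cases k <;> fin_cases i <;> fin_cases j <;>
    simp [Fin.sum_univ_four, ppWave, hc, hc1, cc, ci, hz, hh]

lemma differentiable_pd {h : R4 → ℝ} (hh : ContDiff ℝ ∞ h) (i : Fin 4) (p : R4) :
    DifferentiableAt ℝ (pd i h) p :=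
  (contDiffAt_pd hh.contDiffAt i).differentiableAt (by simp)

lemma riemann_ppWave (h : R4 → ℝ) (hh : ContDiff ℝ ∞ h) (hz : ∀ q, pd 3 h q = 0)
    (l k i j : Fin 4) (p : R4) :
    riemann (ppWave h) l k i j p =
      cc l j k * pd i (pd (ci l j k) h) p - cc l i k * pd j (pd (ci l i k) h) p
      + ∑ m, ((cc l i m * pd (ci l i m) h p) * (cc m j k * pd (ci m j k) h p)
        - (cc l j m * pd (ci l j m) h p) * (cc m i k * pd (ci m i k) h p)) := by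
  rw [riemann]
  simp only [christoffel_ppWave h hz]
  rw [pd_const_mul _ _ (differentiable_pd hh _ p), pd_const_mul _ _ (differentiable_pd hh _ p)]

lemma ricci_ppWave (h : R4 → ℝ) (hh : ContDiff ℝ ∞ h) (hz : ∀ q, pd 3 h q = 0)
    (hharm : ∀ q, pd 1 (pd 1 h) q + pd 2 (pd 2 h) q = 0) (k j : Fin 4) (p : R4) :
    ricci (ppWave h) k j p = 0 := by
  have hz3' : ∀ a, pd 3 (pd a h) p = 0 := fun a => by
    have : pd 3 h = fun _ => 0 := funext hz
    rw [pd_comm hh.contDiffAt, this, pd_const]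
  have h1 := hharm p
  rw [ricci]
  simp only [riemann_ppWave h hh hz, Fin.sum_univ_four]
  fin_cases k <;> fin_cases j <;> simp [cc, ci, hz3']
  linarith

lemma scalar_ppWave (h : R4 → ℝ) (hh : ContDiff ℝ ∞ h) (hz : ∀ q, pd 3 h q = 0)
    (hharm : ∀ q, pd 1 (pd 1 h) q + pd 2 (pd 2 h) q = 0) (p : R4) :
    scalarCurvature (ppWave h) p = 0 := by
  rw [scalarCurvature]
  simp [ricci_ppWave h hh hz hharm]

lemma schouten_ppWave (h : R4 → ℝ) (hh : ContDiff ℝ ∞ h) (hz : ∀ q, pd 3 h q = 0)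
    (hharm : ∀ q, pd 1 (pd 1 h) q + pd 2 (pd 2 h) q = 0) (i j : Fin 4) (p : R4) :
    schouten (ppWave h) i j p = 0 := by
  rw [schouten, ricci_ppWave h hh hz hharm, scalar_ppWave h hh hz hharm]
  simp

lemma weyl_ppWave_11 (h : R4 → ℝ) (hh : ContDiff ℝ ∞ h) (hz : ∀ q, pd 3 h q = 0)
    (hharm : ∀ q, pd 1 (pd 1 h) q + pd 2 (pd 2 h) q = 0) (p : R4) :
    weyl (ppWave h) 1 0 1 0 p = -(1 / 2) * pd 1 (pd 1 h) p := by
  rw [weyl]
  simp only [schouten_ppWave h hh hz hharm, riemann_ppWave h hh hz, Fin.sum_univ_four]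
  simp [cc, ci, ppWave]

lemma weyl_ppWave_12 (h : R4 → ℝ) (hh : ContDiff ℝ ∞ h) (hz : ∀ q, pd 3 h q = 0)
    (hharm : ∀ q, pd 1 (pd 1 h) q + pd 2 (pd 2 h) q = 0) (p : R4) :
    weyl (ppWave h) 2 0 1 0 p = -(1 / 2) * pd 1 (pd 2 h) p := by
  rw [weyl]
  simp only [schouten_ppWave h hh hz hharm, riemann_ppWave h hh hz, Fin.sum_univ_four]
  simp [cc, ci, ppWave]

lemma weylNonzero_ppWave (h : R4 → ℝ) (hh : ContDiff ℝ ∞ h) (hz : ∀ q, pd 3 h q = 0)
    (hharm : ∀ q, pd 1 (pd 1 h) q + pd 2 (pd 2 h) q = 0) (p : R4)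
    (hW : pd 1 (pd 1 h) p ≠ 0 ∨ pd 1 (pd 2 h) p ≠ 0) : WeylNonzeroAt (ppWave h) p := by
  rcases hW with h1 | h1
  · refine ⟨1, 0, 1, 0, ?_⟩
    rw [weyl_ppWave_11 h hh hz hharm]
    exact mul_ne_zero (by norm_num) h1
  · refine ⟨2, 0, 1, 0, ?_⟩
    rw [weyl_ppWave_12 h hh hz hharm]
    exact mul_ne_zero (by norm_num) h1

lemma isLorentzian_ppWave (h : R4 → ℝ) (hh : ContDiff ℝ ∞ h) : IsLorentzianMetric (ppWave h) where
  smooth i j := by
    fin_cases i <;> fin_cases j <;> simp [ppWave] <;> first | exact hh | exact contDiff_const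
  symm p i j := by
    fin_cases i <;> fin_cases j <;> simp [ppWave]
  signature p := by
    refine ⟨!![1, 0, 0, 1; 0, 1, 0, 0; 0, 0, 1, 0; -(1 + h p) / 2, 0, 0, (1 - h p) / 2], ?_, ?_⟩
    · have hinv : !![1, 0, 0, 1; 0, 1, 0, 0; 0, 0, 1, 0; -(1 + h p) / 2, 0, 0, (1 - h p) / 2]
          * !![(1 - h p) / 2, 0, 0, -1; 0, 1, 0, 0; 0, 0, 1, 0; (1 + h p) / 2, 0, 0, 1]
          = (1 : Matrix (Fin 4) (Fin 4) ℝ) := by
        ext i j
        fin_cases i <;> fin_cases j <;>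
          simp [Matrix.mul_apply, Fin.sum_univ_four] <;> ring
      exact (isUnit_iff_exists_inv).mpr ⟨_, hinv⟩
    · ext i j
      fin_cases i <;> fin_cases j <;>
        simp [ppWave, Matrix.mul_apply, Fin.sum_univ_four, Matrix.diagonal] <;> ring

end Pool.Agent.Work.MP_d87c46_gt
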