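import Mathlib
import Pool.Agent.Work.MP_d87c46_gt.Algebra
import Pool.Agent.Work.MP_d87c46_gt.Curvature

open scoped ContDiff Topology Matrix
open TopologicalSpace Filter

namespace Pool.Agent.Work.MP_d87c46_gt

theorem ae_algebra {A : Type*} [CommRing A] [Algebra ℝ A] (D : Fin 4 → Derivation ℝ A A)
    (comm : ∀ i j f, D i (D j f) = D j (D i f)) (h s μ : A)
    (hharm : D 1 (D 1 h) + D 2 (D 2 h) = 0)
    (hreg : ∀ z : A, D 1 (D 1 h) * z = 0 → D 1 (D 2 h) * z = 0 → z = 0)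
    (hsq : ∀ z w : A, z * z + w * w = 0 → z = 0 ∧ w = 0)
    (a31 : D 3 (D 1 s) = 0) (a32 : D 3 (D 2 s) = 0) (a12 : D 1 (D 2 s) = 0)
    (a11 : D 1 (D 1 s) = μ) (a22 : D 2 (D 2 s) = μ) (a03 : D 0 (D 3 s) = μ)
    (a01 : 2 * D 0 (D 1 s) = D 1 h * D 3 s) (a02 : 2 * D 0 (D 2 s) = D 2 h * D 3 s)
    (a00 : 2 * D 0 (D 0 s) - D 0 h * D 3 s + D 1 h * D 1 s + D 2 h * D 2 s = 2 * (μ * h)) :
    D 1 s = 0 ∧ D 2 s = 0 ∧ D 3 s = 0 ∧ D 0 (D 0 s) = 0 := by
  have c1 : ∀ f, D 1 (D 0 f) = D 0 (D 1 f) := comm 1 0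
  have c2 : ∀ f, D 2 (D 0 f) = D 0 (D 2 f) := comm 2 0
  have c3 : ∀ f, D 2 (D 1 f) = D 1 (D 2 f) := comm 2 1
  have a13 : D 1 (D 3 s) = 0 := by rw [comm 1 3, a31]
  have a23 : D 2 (D 3 s) = 0 := by rw [comm 2 3, a32]
  have hyy : D 2 (D 2 h) = - D 1 (D 1 h) := by linear_combination hharm
  have b1 : D 1 (D 2 h) * D 3 s = 0 := by
    have k := congrArg (D 2) a01
    simp only [Derivation.leibniz, smul_eq_mul, der_two, c2, c3, a12, a23, map_zero, mul_zero,
      add_zero, zero_add] at k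
    linear_combination -k
  have b2 : D 1 (D 1 h) * D 3 s = 0 := by
    have k1 := congrArg (D 1) a01
    have k2 := congrArg (D 2) a02
    simp only [Derivation.leibniz, smul_eq_mul, der_two, c1, c2, a11, a22, a13, a23, hyy,
      mul_zero, add_zero, zero_add] at k1 k2
    apply two_cancel
    linear_combination k2 - k1
  have s3 : D 3 s = 0 := hreg _ b2 b1
  rw [s3, map_zero] at a03
  rw [s3, mul_zero] at a01 a02 a00
  rw [← a03, zero_mul, mul_zero] at a00
  rw [← a03] at a11 a22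
  have a01' : D 0 (D 1 s) = 0 := two_cancel a01
  have a02' : D 0 (D 2 s) = 0 := two_cancel a02
  have k1 := congrArg (D 1) a00
  have k2 := congrArg (D 2) a00
  simp only [map_add, Derivation.leibniz, smul_eq_mul, der_two, c1, c2, c3, a01', a02',
    a11, a22, a12, hyy, map_zero, mul_zero, add_zero, zero_add, sub_zero] at k1 k2
  have s1 : D 1 s = 0 := by
    have k3 : (D 1 (D 1 h) * D 1 s) * (D 1 (D 1 h) * D 1 s)
        + (D 1 (D 2 h) * D 1 s) * (D 1 (D 2 h) * D 1 s) = 0 := by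
      linear_combination D 1 s * D 1 (D 1 h) * k1 + D 1 s * D 1 (D 2 h) * k2
    obtain ⟨k4, k5⟩ := hsq _ _ k3
    exact hreg _ k4 k5
  have s2 : D 2 s = 0 := by
    have k3 : (D 1 (D 1 h) * D 2 s) * (D 1 (D 1 h) * D 2 s)
        + (D 1 (D 2 h) * D 2 s) * (D 1 (D 2 h) * D 2 s) = 0 := by
      linear_combination D 2 s * D 1 (D 2 h) * k1 - D 2 s * D 1 (D 1 h) * k2
    obtain ⟨k4, k5⟩ := hsq _ _ k3
    exact hreg _ k4 k5
  refine ⟨s1, s2, s3, ?_⟩
  rw [s1, s2, mul_zero, mul_zero] at a00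
  apply two_cancel
  linear_combination a00

lemma aeTensor_ppWave (h : R4 → ℝ) (hh : ContDiff ℝ ∞ h) (hz : ∀ q, pd 3 h q = 0)
    (hharm : ∀ q, pd 1 (pd 1 h) q + pd 2 (pd 2 h) q = 0) (σ : R4 → ℝ) (i j : Fin 4) (p : R4) :
    aeTensor (ppWave h) σ i j p
      = pd i (pd j σ) p - ∑ k, cc k i j * pd (ci k i j) h p * pd k σ p := by
  rw [aeTensor, schouten_ppWave h hh hz hharm, hessian]
  simp only [christoffel_ppWave h hz]
  ring

lemma pd_coord (i j : Fin 4) (p : R4) : pd i (fun q => q j) p = if i = j then 1 else 0 := by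
  have h1 : HasFDerivAt (fun q : R4 => q j) (ContinuousLinearMap.proj (R := ℝ) j) p :=
    (ContinuousLinearMap.proj (R := ℝ) (φ := fun _ : Fin 4 => ℝ) j).hasFDerivAt
  rw [pd, h1.fderiv]
  simp [Pi.single_apply, eq_comm]

lemma pd_affine (i : Fin 4) (c₀ c₁ : ℝ) (p : R4) :
    pd i (fun q => c₀ + c₁ * q 0) p = if i = 0 then c₁ else 0 := by
  have h1 : HasFDerivAt (fun q : R4 => c₀ + c₁ * q 0)
      (c₁ • ContinuousLinearMap.proj (R := ℝ) (φ := fun _ : Fin 4 => ℝ) 0) p :=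
    ((ContinuousLinearMap.proj (R := ℝ) (φ := fun _ : Fin 4 => ℝ) 0).hasFDerivAt.const_mul
      c₁).const_add c₀
  rw [pd, h1.fderiv]
  simp [Pi.single_apply, eq_comm]

/-- A function all of whose partial derivatives vanish is constant. -/
lemma const_of_pd {f : R4 → ℝ} (hf : ContDiff ℝ ∞ f) (h0 : ∀ i p, pd i f p = 0) (p q : R4) :
    f p = f q := by
  apply is_const_of_fderiv_eq_zero (𝕜 := ℝ) (hf.differentiable (by simp))
  intro x
  ext v
  have h1 : v = ∑ i, v i • (Pi.single i (1 : ℝ) : R4) := by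
    ext j
    simp [Finset.sum_apply, Pi.single_apply]
  rw [h1, map_sum]
  simp only [map_smul]
  have h2 : ∀ i, fderiv ℝ f x (Pi.single i 1) = 0 := fun i => h0 i x
  simp [h2]

/-- The almost Einstein scales of a vacuum pp-wave with nowhere vanishing Weyl tensor. -/
theorem ae_iff (h : R4 → ℝ) (hh : ContDiff ℝ ∞ h) (hz : ∀ q, pd 3 h q = 0)
    (hharm : ∀ q, pd 1 (pd 1 h) q + pd 2 (pd 2 h) q = 0)
    (hW : ∀ q, pd 1 (pd 1 h) q ≠ 0 ∨ pd 1 (pd 2 h) q ≠ 0) (σ : R4 → ℝ) :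
    IsAlmostEinsteinScale (ppWave h) σ ↔ ∃ c₀ c₁ : ℝ, σ = fun p => c₀ + c₁ * p 0 := by
  constructor
  · rintro ⟨hσ, hae⟩
    let U : Opens R4 := ⊤
    have hσU : ContDiffOn ℝ ∞ σ U := hσ.contDiffOn
    have hhU : ContDiffOn ℝ ∞ h U := hh.contDiffOn
    let s : SA U := toSA U σ hσU
    let H : SA U := toSA U h hhU
    have ds1 : ∀ i (q : U), (dd U i s).1 q = pd i σ q := fun i q => by
      rw [dd_toSA]; rfl
    have ds2 : ∀ i j (q : U), (dd U i (dd U j s)).1 q = pd i (pd j σ) q := fun i j q => by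
      rw [dd_toSA, dd_toSA]; rfl
    have dH1 : ∀ i (q : U), (dd U i H).1 q = pd i h q := fun i q => by
      rw [dd_toSA]; rfl
    have dH2 : ∀ i j (q : U), (dd U i (dd U j H)).1 q = pd i (pd j h) q := fun i j q => by
      rw [dd_toSA, dd_toSA]; rfl
    have hHv : ∀ q : U, H.1 q = h q := fun q => rfl
    have hharm' : dd U 1 (dd U 1 H) + dd U 2 (dd U 2 H) = 0 := by
      ext q
      change (dd U 1 (dd U 1 H)).1 q + (dd U 2 (dd U 2 H)).1 q = 0
      rw [dH2, dH2, hharm]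
    have hreg : ∀ z : SA U, dd U 1 (dd U 1 H) * z = 0 → dd U 1 (dd U 2 H) * z = 0 → z = 0 := by
      intro z h1 h2
      ext q
      have k1 : (dd U 1 (dd U 1 H)).1 q * z.1 q = 0 := congrFun (congrArg Subtype.val h1) q
      have k2 : (dd U 1 (dd U 2 H)).1 q * z.1 q = 0 := congrFun (congrArg Subtype.val h2) q
      rw [dH2] at k1 k2
      change z.1 q = 0
      rcases hW q with hq | hq
      · exact (mul_eq_zero.mp k1).resolve_left hq
      · exact (mul_eq_zero.mp k2).resolve_left hq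
    have hsq : ∀ z w : SA U, z * z + w * w = 0 → z = 0 ∧ w = 0 := by
      intro z w h1
      have k : ∀ q, z.1 q * z.1 q + w.1 q * w.1 q = 0 := fun q =>
        congrFun (congrArg Subtype.val h1) q
      constructor
      · ext q
        change z.1 q = 0
        nlinarith [k q, mul_self_nonneg (z.1 q), mul_self_nonneg (w.1 q)]
      · ext q
        change w.1 q = 0
        nlinarith [k q, mul_self_nonneg (z.1 q), mul_self_nonneg (w.1 q)]
    -- the equations at each point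
    let m : R4 → ℝ := fun p => 1 / 4 * (∑ k, ∑ l, (ppWave h p)⁻¹ k l
      * aeTensor (ppWave h) σ k l p)
    have heq : ∀ p i j, pd i (pd j σ) p - ∑ k, cc k i j * pd (ci k i j) h p * pd k σ p
        = m p * ppWave h p i j := by
      intro p i j
      have h1 := hae p i j
      rw [← aeTensor_ppWave h hh hz hharm]
      linear_combination h1
    have e11 : ∀ p, pd 1 (pd 1 σ) p = m p := fun p => by
      simpa [Fin.sum_univ_four, cc, ci, ppWave] using heq p 1 1
    have e22 : ∀ p, pd 2 (pd 2 σ) p = m p := fun p => by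
      simpa [Fin.sum_univ_four, cc, ci, ppWave] using heq p 2 2
    have e31 : ∀ p, pd 3 (pd 1 σ) p = 0 := fun p => by
      simpa [Fin.sum_univ_four, cc, ci, ppWave] using heq p 3 1
    have e32 : ∀ p, pd 3 (pd 2 σ) p = 0 := fun p => by
      simpa [Fin.sum_univ_four, cc, ci, ppWave] using heq p 3 2
    have e12 : ∀ p, pd 1 (pd 2 σ) p = 0 := fun p => by
      simpa [Fin.sum_univ_four, cc, ci, ppWave] using heq p 1 2
    have e03 : ∀ p, pd 0 (pd 3 σ) p = m p := fun p => by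
      simpa [Fin.sum_univ_four, cc, ci, ppWave] using heq p 0 3
    have e01 : ∀ p, 2 * pd 0 (pd 1 σ) p = pd 1 h p * pd 3 σ p := fun p => by
      have h1 := heq p 0 1
      simp [Fin.sum_univ_four, cc, ci, ppWave] at h1
      linear_combination 2 * h1
    have e02 : ∀ p, 2 * pd 0 (pd 2 σ) p = pd 2 h p * pd 3 σ p := fun p => by
      have h1 := heq p 0 2
      simp [Fin.sum_univ_four, cc, ci, ppWave] at h1
      linear_combination 2 * h1
    have e00 : ∀ p, 2 * pd 0 (pd 0 σ) p - pd 0 h p * pd 3 σ p + pd 1 h p * pd 1 σ p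
        + pd 2 h p * pd 2 σ p = 2 * (m p * h p) := fun p => by
      have h1 := heq p 0 0
      simp [Fin.sum_univ_four, cc, ci, ppWave] at h1
      linear_combination 2 * h1
    obtain ⟨s1, s2, s3, s00⟩ := ae_algebra (dd U) (dd_comm U) H s (dd U 1 (dd U 1 s)) hharm' hreg
      hsq
      (by ext q; change (dd U 3 (dd U 1 s)).1 q = 0; rw [ds2, e31])
      (by ext q; change (dd U 3 (dd U 2 s)).1 q = 0; rw [ds2, e32])
      (by ext q; change (dd U 1 (dd U 2 s)).1 q = 0; rw [ds2, e12])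
      rfl
      (by ext q; change (dd U 2 (dd U 2 s)).1 q = (dd U 1 (dd U 1 s)).1 q; rw [ds2, ds2, e22, e11])
      (by ext q; change (dd U 0 (dd U 3 s)).1 q = (dd U 1 (dd U 1 s)).1 q; rw [ds2, ds2, e03, e11])
      (by
        ext q
        change 2 * (dd U 0 (dd U 1 s)).1 q = (dd U 1 H).1 q * (dd U 3 s).1 q
        rw [ds2, dH1, ds1, e01])
      (by
        ext q
        change 2 * (dd U 0 (dd U 2 s)).1 q = (dd U 2 H).1 q * (dd U 3 s).1 q
        rw [ds2, dH1, ds1, e02])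
      (by
        ext q
        change 2 * (dd U 0 (dd U 0 s)).1 q - (dd U 0 H).1 q * (dd U 3 s).1 q
          + (dd U 1 H).1 q * (dd U 1 s).1 q + (dd U 2 H).1 q * (dd U 2 s).1 q
          = 2 * ((dd U 1 (dd U 1 s)).1 q * H.1 q)
        rw [ds2, ds2, dH1, dH1, dH1, ds1, ds1, ds1, hHv, e00, e11])
    have p1 : ∀ q : R4, pd 1 σ q = 0 := fun q => by
      have := congrFun (congrArg Subtype.val s1) ⟨q, trivial⟩
      rwa [ds1] at this
    have p2 : ∀ q : R4, pd 2 σ q = 0 := fun q => by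
      have := congrFun (congrArg Subtype.val s2) ⟨q, trivial⟩
      rwa [ds1] at this
    have p3 : ∀ q : R4, pd 3 σ q = 0 := fun q => by
      have := congrFun (congrArg Subtype.val s3) ⟨q, trivial⟩
      rwa [ds1] at this
    have p00 : ∀ q : R4, pd 0 (pd 0 σ) q = 0 := fun q => by
      have := congrFun (congrArg Subtype.val s00) ⟨q, trivial⟩
      rwa [ds2] at this
    have pz : ∀ (i : Fin 4), (∀ q, pd i σ q = 0) → ∀ q, pd i (pd 0 σ) q = 0 := by
      intro i hi q
      have : pd i σ = fun _ => 0 := funext hi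
      rw [pd_comm hσ.contDiffAt, this, pd_const]
    have hconst : ∀ q, pd 0 σ q = pd 0 σ 0 := fun q => by
      apply const_of_pd (contDiff_pd' 0 hσ)
      intro i
      fin_cases i
      · exact p00
      · exact pz 1 p1
      · exact pz 2 p2
      · exact pz 3 p3
    refine ⟨σ 0, pd 0 σ 0, ?_⟩
    have hlin : ContDiff ℝ ∞ fun p : R4 => (-1 : ℝ) • ((0 : ℝ) + pd 0 σ 0 * p 0) := by fun_prop
    have key : ∀ p, (σ + fun p : R4 => (-1 : ℝ) • ((0 : ℝ) + pd 0 σ 0 * p 0)) p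
        = (σ + fun p : R4 => (-1 : ℝ) • ((0 : ℝ) + pd 0 σ 0 * p 0)) 0 := by
      intro p
      apply const_of_pd (hσ.add hlin)
      intro i q
      change pd i (σ + fun p : R4 => (-1 : ℝ) • ((0 : ℝ) + pd 0 σ 0 * p 0)) q = 0
      rw [pd_add' i hσ hlin]
      have h1 : pd i (fun p : R4 => (-1 : ℝ) • ((0 : ℝ) + pd 0 σ 0 * p 0)) q
          = (-1) * (if i = 0 then pd 0 σ 0 else 0) := by
        have h2 : (fun p : R4 => (-1 : ℝ) • ((0 : ℝ) + pd 0 σ 0 * p 0))
          = (-1 : ℝ) • fun p : R4 => ((0 : ℝ) + pd 0 σ 0 * p 0) := rfl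
        rw [h2, pd_smul' i (-1) (by fun_prop), Pi.smul_apply, pd_affine, smul_eq_mul]
      rw [Pi.add_apply, h1]
      fin_cases i
      · simp [hconst q]
      · simp [p1 q]
      · simp [p2 q]
      · simp [p3 q]
    ext p
    have h1 := key p
    simp only [Pi.add_apply, smul_eq_mul] at h1
    simp at h1
    linarith
  · rintro ⟨c₀, c₁, rfl⟩
    refine ⟨by fun_prop, ?_⟩
    have h0 : ∀ p i j, aeTensor (ppWave h) (fun p => c₀ + c₁ * p 0) i j p = 0 := by
      intro p i j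
      rw [aeTensor_ppWave h hh hz hharm]
      have h1 : ∀ i, pd i (fun p : R4 => c₀ + c₁ * p 0) = fun _ => if i = 0 then c₁ else 0 :=
        fun i => funext fun p => pd_affine i c₀ c₁ p
      simp only [h1, pd_const]
      fin_cases i <;> fin_cases j <;> simp [cc]
    intro p i j
    simp [h0]

end Pool.Agent.Work.MP_d87c46_gt
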