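import Mathlib
import Pool.Agent.Work.MP_d87c46_gt.Algebra

namespace Pool.Agent.Work.MP_d87c46_gt

variable {A : Type*} [CommRing A] [Algebra ℝ A]

/-- Naturality of the Levi-Civita connection, in the special case needed: if the pulled back
metric `X² dT² + 2 dT dZ + dX² + dY²` equals `N g`, then the Hessian of `T` with respect to it
vanishes. Here `θ = g⁻¹ dT`. -/
theorem hessian_T (D : Fin 4 → Derivation ℝ A A) (comm : ∀ i j f, D i (D j f) = D j (D i f))
    (T X Y Z N : A) (g : Fin 4 → Fin 4 → A)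
    (E : ∀ i j, X * X * (D i T * D j T) + D i T * D j Z + D j T * D i Z + D i X * D j X
      + D i Y * D j Y = N * g i j)
    (θ : Fin 4 → A) (o1 : ∑ l, θ l * D l T = 0) (o2 : ∑ l, θ l * D l X = 0)
    (o3 : ∑ l, θ l * D l Y = 0) (o4 : ∑ l, θ l * D l Z = N) (i j : Fin 4) :
    2 * (N * D i (D j T)) =
      ∑ l, θ l * (D i (N * g j l) + D j (N * g i l) - D l (N * g i j)) := by
  have key : ∀ l, D i (N * g j l) + D j (N * g i l) - D l (N * g i j)
      = 2 * ((X * D i X * D j T + X * D j X * D i T + X * X * D i (D j T) + D i (D j Z)) * D l T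
        - X * (D i T * D j T) * D l X + D i (D j T) * D l Z + D i (D j X) * D l X
        + D i (D j Y) * D l Y) := by
    intro l
    rw [← E j l, ← E i l, ← E i j]
    simp only [map_add, Derivation.leibniz, smul_eq_mul]
    rw [comm l i T, comm l j T, comm l i Z, comm l j Z, comm l i X, comm l j X, comm l i Y,
      comm l j Y, comm j i T, comm j i Z, comm j i X, comm j i Y]
    ring
  rw [Finset.sum_congr rfl fun l _ => by rw [key l]]
  simp only [Fin.sum_univ_four] at *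
  linear_combination (-2) * (X * D i X * D j T + X * D j X * D i T + X * X * D i (D j T)
    + D i (D j Z)) * o1 + 2 * (X * (D i T * D j T)) * o2 - 2 * D i (D j T) * o4
    - 2 * D i (D j X) * o2 - 2 * D i (D j Y) * o3

/-- The components of the pp-wave metric `h dt² + 2 dt dz + dx² + dy²`. -/
def ppg (h : A) : Fin 4 → Fin 4 → A :=
  ![![h, 0, 0, 1], ![0, 1, 0, 0], ![0, 0, 1, 0], ![1, 0, 0, 0]]

/-- The key step: the function `T` depends on `t` only. -/
theorem T_only_t (D : Fin 4 → Derivation ℝ A A) (comm : ∀ i j f, D i (D j f) = D j (D i f))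
    (T X Y Z N M h : A) (hNM : N * M = 1)
    (E : ∀ i j, X * X * (D i T * D j T) + D i T * D j Z + D j T * D i Z + D i X * D j X
      + D i Y * D j Y = N * ppg h i j)
    (o1 : D 3 T * D 0 T + D 1 T * D 1 T + D 2 T * D 2 T + (D 0 T - h * D 3 T) * D 3 T = 0)
    (o2 : D 3 T * D 0 X + D 1 T * D 1 X + D 2 T * D 2 X + (D 0 T - h * D 3 T) * D 3 X = 0)
    (o3 : D 3 T * D 0 Y + D 1 T * D 1 Y + D 2 T * D 2 Y + (D 0 T - h * D 3 T) * D 3 Y = 0)
    (o4 : D 3 T * D 0 Z + D 1 T * D 1 Z + D 2 T * D 2 Z + (D 0 T - h * D 3 T) * D 3 Z = N)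
    (hz : D 3 h = 0) (hharm : D 1 (D 1 h) + D 2 (D 2 h) = 0)
    (hreg : ∀ z : A, D 1 (D 1 h) * z = 0 → D 1 (D 2 h) * z = 0 → z = 0)
    (hsq : ∀ z w : A, z * z + w * w = 0 → z = 0 ∧ w = 0) :
    D 1 T = 0 ∧ D 2 T = 0 ∧ D 3 T = 0 := by
  have hess := hessian_T D comm T X Y Z N (ppg h) E ![D 3 T, D 1 T, D 2 T, D 0 T - h * D 3 T]
    (by simpa [Fin.sum_univ_four] using o1) (by simpa [Fin.sum_univ_four] using o2)
    (by simpa [Fin.sum_univ_four] using o3) (by simpa [Fin.sum_univ_four] using o4)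
  have h33 := hess 3 3
  have h31 := hess 3 1
  have h32 := hess 3 2
  have h12 := hess 1 2
  have h11 := hess 1 1
  have h22 := hess 2 2
  have h03 := hess 0 3
  have h01 := hess 0 1
  have h02 := hess 0 2
  have h00 := hess 0 0
  simp [Fin.sum_univ_four, ppg] at h33 h31 h32 h12 h11 h22 h03 h01 h02 h00
  have hDM : ∀ i, D i M = -(M * M * D i N) := by
    intro i
    have k := congrArg (D i) hNM
    rw [Derivation.leibniz, smul_eq_mul, smul_eq_mul, Derivation.map_one_eq_zero] at k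
    linear_combination M * k - D i M * hNM
  have t33 : 2 * D 3 (D 3 T) = M * (D 3 T * (D 3 N + D 3 N)) := by
    linear_combination M * h33 - 2 * D 3 (D 3 T) * hNM
  have t31 : 2 * D 3 (D 1 T) = M * (D 3 T * D 1 N + D 1 T * D 3 N) := by
    linear_combination M * h31 - 2 * D 3 (D 1 T) * hNM
  have t32 : 2 * D 3 (D 2 T) = M * (D 3 T * D 2 N + D 2 T * D 3 N) := by
    linear_combination M * h32 - 2 * D 3 (D 2 T) * hNM
  have t12 : 2 * D 1 (D 2 T) = M * (D 1 T * D 2 N + D 2 T * D 1 N) := by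
    linear_combination M * h12 - 2 * D 1 (D 2 T) * hNM
  have t11 : 2 * D 1 (D 1 T) = M * (-(D 3 T * D 0 N) + D 1 T * D 1 N + -(D 2 T * D 2 N)
      + -((D 0 T - h * D 3 T) * D 3 N)) := by
    linear_combination M * h11 - 2 * D 1 (D 1 T) * hNM
  have t22 : 2 * D 2 (D 2 T) = M * (-(D 3 T * D 0 N) + -(D 1 T * D 1 N) + D 2 T * D 2 N
      + -((D 0 T - h * D 3 T) * D 3 N)) := by
    linear_combination M * h22 - 2 * D 2 (D 2 T) * hNM
  have t03 : 2 * D 0 (D 3 T) = M * (D 3 T * (N * D 3 h + h * D 3 N) + -(D 1 T * D 1 N)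
      + -(D 2 T * D 2 N)) := by
    linear_combination M * h03 - 2 * D 0 (D 3 T) * hNM
  have t01 : 2 * D 0 (D 1 T) = M * (D 3 T * (N * D 1 h + h * D 1 N) + D 1 T * D 0 N
      + (D 0 T - h * D 3 T) * D 1 N) := by
    linear_combination M * h01 - 2 * D 0 (D 1 T) * hNM
  have t02 : 2 * D 0 (D 2 T) = M * (D 3 T * (N * D 2 h + h * D 2 N) + D 2 T * D 0 N
      + (D 0 T - h * D 3 T) * D 2 N) := by
    linear_combination M * h02 - 2 * D 0 (D 2 T) * hNM
  have t00 : 2 * D 0 (D 0 T) = M * (D 3 T * (N * D 0 h + h * D 0 N)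
      + D 1 T * (-(h * D 1 N) + -(N * D 1 h)) + D 2 T * (-(h * D 2 N) + -(N * D 2 h))
      + (D 0 T - h * D 3 T) * (D 0 N + D 0 N - (N * D 3 h + h * D 3 N))) := by
    linear_combination M * h00 - 2 * D 0 (D 0 T) * hNM
  clear h33 h31 h32 h12 h11 h22 h03 h01 h02 h00 hess
  -- the conformal Killing field
  set κ : A := D 0 N * D 3 T + D 3 N * D 0 T - h * D 3 N * D 3 T + D 1 N * D 1 T + D 2 N * D 2 T
    with hκ
  have c31 : D 1 (D 3 T) = D 3 (D 1 T) := comm 1 3 T
  have c32 : D 2 (D 3 T) = D 3 (D 2 T) := comm 2 3 T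
  have c21 : D 2 (D 1 T) = D 1 (D 2 T) := comm 2 1 T
  have c30 : D 3 (D 0 T) = D 0 (D 3 T) := comm 3 0 T
  have c10 : D 1 (D 0 T) = D 0 (D 1 T) := comm 1 0 T
  have c20 : D 2 (D 0 T) = D 0 (D 2 T) := comm 2 0 T
  have e1 : D 3 (M * D 3 T) = 0 := by
    apply two_cancel
    rw [Derivation.leibniz, smul_eq_mul, smul_eq_mul, hDM]
    linear_combination M * t33
  have e2 : D 3 (M * D 1 T) = - D 1 (M * D 3 T) := by
    have : D 3 (M * D 1 T) + D 1 (M * D 3 T) = 0 := by
      apply two_cancel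
      rw [Derivation.leibniz, Derivation.leibniz, smul_eq_mul, smul_eq_mul, smul_eq_mul,
        smul_eq_mul, hDM, hDM, c31]
      linear_combination 2 * M * t31
    linear_combination this
  have e3 : D 3 (M * D 2 T) = - D 2 (M * D 3 T) := by
    have : D 3 (M * D 2 T) + D 2 (M * D 3 T) = 0 := by
      apply two_cancel
      rw [Derivation.leibniz, Derivation.leibniz, smul_eq_mul, smul_eq_mul, smul_eq_mul,
        smul_eq_mul, hDM, hDM, c32]
      linear_combination 2 * M * t32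
    linear_combination this
  have e4 : 2 * D 1 (M * D 1 T) = -(M * M * κ) := by
    rw [Derivation.leibniz, smul_eq_mul, smul_eq_mul, hDM, hκ]
    linear_combination M * t11
  have e4' : 2 * D 2 (M * D 2 T) = -(M * M * κ) := by
    rw [Derivation.leibniz, smul_eq_mul, smul_eq_mul, hDM, hκ]
    linear_combination M * t22
  have e5 : D 1 (M * D 2 T) = - D 2 (M * D 1 T) := by
    have : D 1 (M * D 2 T) + D 2 (M * D 1 T) = 0 := by
      apply two_cancel
      rw [Derivation.leibniz, Derivation.leibniz, smul_eq_mul, smul_eq_mul, smul_eq_mul,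
        smul_eq_mul, hDM, hDM, c21]
      linear_combination 2 * M * t12
    linear_combination this
  have e6 : D 0 (M * D 3 T) + D 3 (M * (D 0 T - h * D 3 T)) = -(M * M * κ) := by
    have : D 0 (M * D 3 T) + D 3 (M * (D 0 T - h * D 3 T)) + M * M * κ = 0 := by
      apply two_cancel
      simp only [map_sub, Derivation.leibniz, smul_eq_mul, hDM, hz, c30]
      rw [hκ]
      linear_combination 2 * M * t03 - M * h * t33 + 2 * M * M * D 3 T * N * hz
    linear_combination this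
  have e7 : h * D 1 (M * D 3 T) + D 1 (M * (D 0 T - h * D 3 T)) + D 0 (M * D 1 T) = 0 := by
    apply two_cancel
    simp only [map_sub, Derivation.leibniz, smul_eq_mul, hDM, c31, c10]
    linear_combination 2 * M * t01 + 2 * M * D 3 T * D 1 h * hNM
  have e8 : h * D 2 (M * D 3 T) + D 2 (M * (D 0 T - h * D 3 T)) + D 0 (M * D 2 T) = 0 := by
    apply two_cancel
    simp only [map_sub, Derivation.leibniz, smul_eq_mul, hDM, c32, c20]
    linear_combination 2 * M * t02 + 2 * M * D 3 T * D 2 h * hNM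
  have e9 : M * D 3 T * D 0 h + M * D 1 T * D 1 h + M * D 2 T * D 2 h
      + 2 * (h * D 0 (M * D 3 T)) + 2 * D 0 (M * (D 0 T - h * D 3 T)) = -(M * M * κ) * h := by
    simp only [map_sub, Derivation.leibniz, smul_eq_mul, hDM]
    rw [hκ]
    linear_combination M * t00 + (M * D 3 T * D 0 h - M * D 1 T * D 1 h - M * D 2 T * D 2 h) * hNM
      + M ^ 2 * N * (h * D 3 T - D 0 T) * hz
  have hnull : h * (M * D 3 T) ^ 2 + 2 * (M * D 3 T) * (M * (D 0 T - h * D 3 T))
      + (M * D 1 T) ^ 2 + (M * D 2 T) ^ 2 = 0 := by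
    linear_combination M ^ 2 * o1
  obtain ⟨r1, r2⟩ := ckv_first (D 0) (D 1) (D 2) (D 3) (comm 1 0) (comm 2 0) (comm 3 0)
    (comm 2 1) (comm 3 1) (comm 3 2) h (M * D 3 T) (M * D 1 T) (M * D 2 T)
    (M * (D 0 T - h * D 3 T)) (-(M * M * κ)) hz hharm e1 e2 e3 e4 e4' e5 e6 e7 e8 e9
  clear_value κ
  generalize hξ : M * D 3 T = ξ at *
  generalize ha : M * D 1 T = a at *
  generalize hb : M * D 2 T = b at *
  generalize hc : M * (D 0 T - h * D 3 T) = c at *
  generalize hlam : -(M * M * κ) = lam at *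
  set p := D 1 (D 1 h) with hp
  set q := D 1 (D 2 h) with hq
  -- `ξ_x = ξ_y = 0`
  have f1 : D 1 ξ = 0 := by
    have k1 : p * (p * D 1 ξ) + q * (q * D 1 ξ) = 0 := by
      linear_combination p * r1 + q * r2
    have k2 : (p * D 1 ξ) * (p * D 1 ξ) + (q * D 1 ξ) * (q * D 1 ξ) = 0 := by
      linear_combination D 1 ξ * k1
    obtain ⟨k3, k4⟩ := hsq _ _ k2
    exact hreg _ k3 k4
  have f2 : D 2 ξ = 0 := by
    have k1 : p * (p * D 2 ξ) + q * (q * D 2 ξ) = 0 := by
      linear_combination q * r1 - p * r2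
    have k2 : (p * D 2 ξ) * (p * D 2 ξ) + (q * D 2 ξ) * (q * D 2 ξ) = 0 := by
      linear_combination D 2 ξ * k1
    obtain ⟨k3, k4⟩ := hsq _ _ k2
    exact hreg _ k3 k4
  rw [f1, neg_zero] at e2
  rw [f2, neg_zero] at e3
  rw [f1, mul_zero, zero_add] at e7
  rw [f2, mul_zero, zero_add] at e8
  obtain ⟨u1, u2⟩ := ckv_second (D 0) (D 1) (D 2) (D 3) (comm 1 0) (comm 2 0) (comm 3 0)
    (comm 2 1) (comm 3 1) (comm 3 2) h ξ a b c lam hharm e1 e2 e3 f1 f2 e4 e4' e5 e6 e7 e8 hnull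
  have hξ2 : ξ ^ 2 = 0 := hreg _ u1 u2
  have hξ0 : ξ = 0 := (hsq ξ 0 (by linear_combination hξ2)).1
  have hab : a * a + b * b = 0 := by
    rw [hξ0] at hnull
    linear_combination hnull
  obtain ⟨ha0, hb0⟩ := hsq _ _ hab
  refine ⟨?_, ?_, ?_⟩
  · linear_combination N * ha + N * ha0 - D 1 T * hNM
  · linear_combination N * hb + N * hb0 - D 2 T * hNM
  · linear_combination N * hξ + N * hξ0 - D 3 T * hNM

end Pool.Agent.Work.MP_d87c46_gt
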