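import Mathlib
import Pool.Agent.Work.MP_d87c46_gt.Hess

namespace Pool.Agent.Work.MP_d87c46_gt

variable {A : Type*} [CommRing A] [Algebra ℝ A]

/-- If `T` depends on `t` only, the profile `h` must be quadratic in `x, y` with non-rotating
trace-free part. -/
theorem profile_rigid (D : Fin 4 → Derivation ℝ A A)
    (comm : ∀ i j f, D i (D j f) = D j (D i f))
    (T X Y Z N M h : A) (hNM : N * M = 1)
    (E : ∀ i j, X * X * (D i T * D j T) + D i T * D j Z + D j T * D i Z + D i X * D j X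
      + D i Y * D j Y = N * ppg h i j)
    (hharm : D 1 (D 1 h) + D 2 (D 2 h) = 0)
    (hT1 : D 1 T = 0) (hT2 : D 2 T = 0) (hT3 : D 3 T = 0)
    (hsq : ∀ z w : A, z * z + w * w = 0 → z = 0 ∧ w = 0) :
    D 1 (D 1 (D 1 h)) = 0 ∧ D 1 (D 1 (D 2 h)) = 0 ∧
      D 0 (D 1 (D 1 h)) * D 1 (D 2 h) = D 0 (D 1 (D 2 h)) * D 1 (D 1 h) := by
  have cancelN : ∀ z : A, N * z = 0 → z = 0 := fun z hz => by
    linear_combination M * hz - z * hNM
  have E33 := E 3 3
  have E11 := E 1 1
  have E22 := E 2 2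
  have E12 := E 1 2
  have E03 := E 0 3
  have E01 := E 0 1
  have E02 := E 0 2
  have E00 := E 0 0
  simp [ppg, hT1, hT2, hT3] at E33 E11 E22 E12 E03 E01 E02 E00
  obtain ⟨hX3, hY3⟩ := hsq _ _ E33
  simp only [hX3, hY3, mul_zero, add_zero] at E03
  -- mixed derivatives of `T`
  have hT01 : D 1 (D 0 T) = 0 := by rw [comm 1 0, hT1, map_zero]
  have hT02 : D 2 (D 0 T) = 0 := by rw [comm 2 0, hT2, map_zero]
  have hT03 : D 3 (D 0 T) = 0 := by rw [comm 3 0, hT3, map_zero]
  have hX31 : D 3 (D 1 X) = 0 := by rw [comm 3 1, hX3, map_zero]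
  have hX32 : D 3 (D 2 X) = 0 := by rw [comm 3 2, hX3, map_zero]
  have hX30 : D 3 (D 0 X) = 0 := by rw [comm 3 0, hX3, map_zero]
  have hY31 : D 3 (D 1 Y) = 0 := by rw [comm 3 1, hY3, map_zero]
  have hY32 : D 3 (D 2 Y) = 0 := by rw [comm 3 2, hY3, map_zero]
  have hY30 : D 3 (D 0 Y) = 0 := by rw [comm 3 0, hY3, map_zero]
  have cancelT : ∀ z : A, D 0 T * z = 0 → z = 0 := fun z hz => by
    linear_combination D 3 Z * M * hz - z * hNM - z * M * E03
  have hN3 : D 3 N = 0 := by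
    have k := congrArg (D 3) E11
    simp only [map_add, Derivation.leibniz, smul_eq_mul, hX31, hY31, mul_zero, add_zero] at k
    exact k.symm
  have hZ13 : D 1 (D 3 Z) = 0 := by
    have k := congrArg (D 3) E01
    simp only [map_add, Derivation.leibniz, smul_eq_mul, hX31, hY31, hT03, hX30, hY30, mul_zero,
      add_zero, map_zero, comm 3 1 Z] at k
    exact cancelT _ k
  have hZ23 : D 2 (D 3 Z) = 0 := by
    have k := congrArg (D 3) E02
    simp only [map_add, Derivation.leibniz, smul_eq_mul, hX32, hY32, hT03, hX30, hY30, mul_zero,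
      add_zero, map_zero, comm 3 2 Z] at k
    exact cancelT _ k
  have hN1 : D 1 N = 0 := by
    have k := congrArg (D 1) E03
    simp only [Derivation.leibniz, smul_eq_mul, hZ13, hT01, mul_zero, add_zero] at k
    exact k.symm
  have hN2 : D 2 N = 0 := by
    have k := congrArg (D 2) E03
    simp only [Derivation.leibniz, smul_eq_mul, hZ23, hT02, mul_zero, add_zero] at k
    exact k.symm
  -- first order derivatives of the isometry equations
  have c21X : D 2 (D 1 X) = D 1 (D 2 X) := comm 2 1 X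
  have c21Y : D 2 (D 1 Y) = D 1 (D 2 Y) := comm 2 1 Y
  set δ : A := D 1 X * D 2 Y - D 2 X * D 1 Y with hδ
  have hδ2 : δ * δ = N * N := by
    rw [hδ]
    linear_combination (D 2 X * D 2 X + D 2 Y * D 2 Y) * E11 + N * E22
      - (D 1 X * D 2 X + D 1 Y * D 2 Y) * E12
  have cancelδ : ∀ z : A, δ * z = 0 → z = 0 := fun z hz => by
    apply cancelN
    apply cancelN
    linear_combination δ * hz - z * hδ2
  have solve : ∀ p q : A, D 1 X * p + D 1 Y * q = 0 → D 2 X * p + D 2 Y * q = 0 →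
      p = 0 ∧ q = 0 := by
    intro p q h1 h2
    constructor
    · apply cancelδ
      rw [hδ]
      linear_combination D 2 Y * h1 - D 1 Y * h2
    · apply cancelδ
      rw [hδ]
      linear_combination D 1 X * h2 - D 2 X * h1
  have d1E11 : D 1 X * D 1 (D 1 X) + D 1 Y * D 1 (D 1 Y) = 0 := by
    have k := congrArg (D 1) E11
    simp only [map_add, Derivation.leibniz, smul_eq_mul, hN1] at k
    apply two_cancel
    linear_combination k
  have d2E11 : D 1 X * D 1 (D 2 X) + D 1 Y * D 1 (D 2 Y) = 0 := by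
    have k := congrArg (D 2) E11
    simp only [map_add, Derivation.leibniz, smul_eq_mul, hN2, c21X, c21Y] at k
    apply two_cancel
    linear_combination k
  have d1E22 : D 2 X * D 1 (D 2 X) + D 2 Y * D 1 (D 2 Y) = 0 := by
    have k := congrArg (D 1) E22
    simp only [map_add, Derivation.leibniz, smul_eq_mul, hN1] at k
    apply two_cancel
    linear_combination k
  have d2E22 : D 2 X * D 2 (D 2 X) + D 2 Y * D 2 (D 2 Y) = 0 := by
    have k := congrArg (D 2) E22
    simp only [map_add, Derivation.leibniz, smul_eq_mul, hN2] at k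
    apply two_cancel
    linear_combination k
  obtain ⟨hX12, hY12⟩ := solve _ _ d2E11 d1E22
  have d1E12 : D 2 X * D 1 (D 1 X) + D 2 Y * D 1 (D 1 Y) = 0 := by
    have k := congrArg (D 1) E12
    simp only [map_add, Derivation.leibniz, smul_eq_mul, hX12, hY12, map_zero] at k
    linear_combination k
  have d2E12 : D 1 X * D 2 (D 2 X) + D 1 Y * D 2 (D 2 Y) = 0 := by
    have k := congrArg (D 2) E12
    simp only [map_add, Derivation.leibniz, smul_eq_mul, c21X, c21Y, hX12, hY12, map_zero] at k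
    linear_combination k
  obtain ⟨hX11, hY11⟩ := solve _ _ d1E11 d1E12
  obtain ⟨hX22, hY22⟩ := solve _ _ d2E12 d2E22
  -- `t`-derivatives
  have c10X : D 1 (D 0 X) = D 0 (D 1 X) := comm 1 0 X
  have c20X : D 2 (D 0 X) = D 0 (D 2 X) := comm 2 0 X
  have c10Y : D 1 (D 0 Y) = D 0 (D 1 Y) := comm 1 0 Y
  have c20Y : D 2 (D 0 Y) = D 0 (D 2 Y) := comm 2 0 Y
  have c10Z : D 1 (D 0 Z) = D 0 (D 1 Z) := comm 1 0 Z
  have c20Z : D 2 (D 0 Z) = D 0 (D 2 Z) := comm 2 0 Z
  have c21Z : D 2 (D 1 Z) = D 1 (D 2 Z) := comm 2 1 Z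
  have d2E01 := congrArg (D 2) E01
  have d1E02 := congrArg (D 1) E02
  have d0E12 := congrArg (D 0) E12
  have d0E11 := congrArg (D 0) E11
  have d0E22 := congrArg (D 0) E22
  have d1E01 := congrArg (D 1) E01
  have d2E02 := congrArg (D 2) E02
  simp only [map_add, Derivation.leibniz, smul_eq_mul, c10X, c20X, c10Y, c20Y, c21X, c21Y, c21Z,
    hX12, hY12, hX11, hY11, hX22, hY22, hT01, hT02, map_zero, mul_zero, add_zero, zero_add]
    at d2E01 d1E02 d0E12 d0E11 d0E22 d1E01 d2E02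
  have hP : D 2 X * D 0 (D 1 X) + D 2 Y * D 0 (D 1 Y) = 0 := by
    apply two_cancel
    linear_combination d0E12 + d1E02 - d2E01
  have hQ : D 1 X * D 0 (D 2 X) + D 1 Y * D 0 (D 2 Y) = 0 := by
    apply two_cancel
    linear_combination d0E12 - d1E02 + d2E01
  have hZ12 : D 1 (D 2 Z) = 0 := by
    apply cancelT
    linear_combination d2E01 - hQ
  have hZ1122 : D 1 (D 1 Z) = D 2 (D 2 Z) := by
    have : D 1 (D 1 Z) - D 2 (D 2 Z) = 0 := by
      apply cancelT
      apply two_cancel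
      linear_combination 2 * d1E01 - 2 * d2E02 - d0E11 + d0E22
    linear_combination this
  -- dual relations
  have q1 : N * D 1 X = D 2 Y * δ := by
    rw [hδ]; linear_combination -(D 1 X) * E22 + D 2 X * E12
  have q2 : N * D 1 Y = -(D 2 X * δ) := by
    rw [hδ]; linear_combination -(D 1 Y) * E22 + D 2 Y * E12
  have q3 : N * D 2 X = -(D 1 Y * δ) := by
    rw [hδ]; linear_combination -(D 2 X) * E11 + D 1 X * E12
  have q4 : N * D 2 Y = D 1 X * δ := by
    rw [hδ]; linear_combination -(D 2 Y) * E11 + D 1 Y * E12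
  have R1 : D 1 X * D 1 X + D 2 X * D 2 X = N := by
    have : D 1 X * D 1 X + D 2 X * D 2 X - N = 0 := by
      apply cancelN
      linear_combination D 1 X * q1 + D 2 X * q3 + hδ2 - δ * hδ
    linear_combination this
  have R2 : D 1 Y * D 1 Y + D 2 Y * D 2 Y = N := by
    have : D 1 Y * D 1 Y + D 2 Y * D 2 Y - N = 0 := by
      apply cancelN
      linear_combination D 1 Y * q2 + D 2 Y * q4 + hδ2 - δ * hδ
    linear_combination this
  have R3 : D 1 X * D 1 Y + D 2 X * D 2 Y = 0 := by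
    apply cancelN
    linear_combination D 1 Y * q1 + D 2 Y * q3
  have w1 : 2 * (N * D 0 (D 1 X)) = D 0 N * D 1 X := by
    linear_combination -2 * D 0 (D 1 X) * R1 - 2 * D 0 (D 1 Y) * R3 + D 1 X * d0E11
      + 2 * D 2 X * hP
  have w2 : 2 * (N * D 0 (D 1 Y)) = D 0 N * D 1 Y := by
    linear_combination -2 * D 0 (D 1 Y) * R2 - 2 * D 0 (D 1 X) * R3 + D 1 Y * d0E11
      + 2 * D 2 Y * hP
  have w3 : 2 * (N * D 0 (D 2 X)) = D 0 N * D 2 X := by
    linear_combination -2 * D 0 (D 2 X) * R1 - 2 * D 0 (D 2 Y) * R3 + D 2 X * d0E22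
      + 2 * D 1 X * hQ
  have w4 : 2 * (N * D 0 (D 2 Y)) = D 0 N * D 2 Y := by
    linear_combination -2 * D 0 (D 2 Y) * R2 - 2 * D 0 (D 2 X) * R3 + D 2 Y * d0E22
      + 2 * D 1 Y * hQ
  -- second derivatives of the `(0,0)` equation
  have z1 := congrArg (D 1) E00
  have z2 := congrArg (D 2) E00
  simp only [map_add, Derivation.leibniz, smul_eq_mul, der_two, c10X, c20X, c10Y, c20Y, c10Z, c20Z,
    hT01, hT02, hN1, hN2, map_zero, mul_zero, add_zero, zero_add] at z1 z2
  have z11 := congrArg (D 1) z1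
  have z12 := congrArg (D 1) z2
  have z22 := congrArg (D 2) z2
  have c1 : ∀ f, D 1 (D 0 f) = D 0 (D 1 f) := comm 1 0
  have c2 : ∀ f, D 2 (D 0 f) = D 0 (D 2 f) := comm 2 0
  have c3 : ∀ f, D 2 (D 1 f) = D 1 (D 2 f) := comm 2 1
  simp only [map_add, Derivation.leibniz, smul_eq_mul, der_two, c1, c2, c3, hX11, hX12, hX22,
    hY11, hY12, hY22, hT1, hT2, hN1, hN2, hZ12, map_zero, mul_zero, add_zero, zero_add]
    at z11 z12 z22
  have hyy : D 2 (D 2 h) = - D 1 (D 1 h) := by linear_combination hharm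
  rw [hZ1122] at z11
  have dd : D 0 (D 1 X) * D 0 (D 1 X) + D 0 (D 1 Y) * D 0 (D 1 Y)
      - D 0 (D 2 X) * D 0 (D 2 X) - D 0 (D 2 Y) * D 0 (D 2 Y) = 0 := by
    apply cancelN
    apply cancelN
    apply two_cancel
    apply two_cancel
    linear_combination (2 * N * D 0 (D 1 X) + D 0 N * D 1 X) * w1
      + (2 * N * D 0 (D 1 Y) + D 0 N * D 1 Y) * w2
      - (2 * N * D 0 (D 2 X) + D 0 N * D 2 X) * w3
      - (2 * N * D 0 (D 2 Y) + D 0 N * D 2 Y) * w4 + D 0 N * D 0 N * (E11 - E22)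
  have dc : D 0 (D 1 X) * D 0 (D 2 X) + D 0 (D 1 Y) * D 0 (D 2 Y) = 0 := by
    apply cancelN
    apply cancelN
    apply two_cancel
    apply two_cancel
    linear_combination (2 * N * D 0 (D 2 X)) * w1 + D 0 N * D 1 X * w3
      + (2 * N * D 0 (D 2 Y)) * w2 + D 0 N * D 1 Y * w4 + D 0 N * D 0 N * E12
  have hA : N * D 1 (D 1 h) = (D 1 X * D 1 X - D 2 X * D 2 X) * (D 0 T * D 0 T) := by
    have : N * D 1 (D 1 h) - (D 1 X * D 1 X - D 2 X * D 2 X) * (D 0 T * D 0 T) = 0 := by
      apply two_cancel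
      rw [hyy] at z22
      linear_combination -z11 + z22 + 2 * dd
    linear_combination this
  have hB : N * D 1 (D 2 h) = 2 * (D 1 X * D 2 X) * (D 0 T * D 0 T) := by
    linear_combination -z12 + 2 * dc
  have A1 := congrArg (D 1) hA
  have B1 := congrArg (D 1) hB
  have A0 := congrArg (D 0) hA
  have B0 := congrArg (D 0) hB
  simp only [map_add, map_sub, Derivation.leibniz, smul_eq_mul, der_two, c1, hX11, hX12, hT1, hN1,
    map_zero, mul_zero, add_zero, zero_add, sub_zero] at A1 B1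
  simp only [map_add, map_sub, Derivation.leibniz, smul_eq_mul, der_two,
    mul_zero, add_zero] at A0 B0
  refine ⟨cancelN _ A1, cancelN _ B1, ?_⟩
  have A2 : N * D 0 (D 1 (D 1 h)) - (D 1 X * D 1 X - D 2 X * D 2 X)
      * (2 * (D 0 T * D 0 (D 0 T))) = 0 := by
    apply cancelN
    linear_combination N * A0 - D 0 N * hA
      + D 0 T * D 0 T * (D 1 X * w1 - D 2 X * w3)
  have B2 : N * D 0 (D 1 (D 2 h)) - 2 * (D 1 X * D 2 X)
      * (2 * (D 0 T * D 0 (D 0 T))) = 0 := by
    apply cancelN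
    linear_combination N * B0 - D 0 N * hB
      + D 0 T * D 0 T * (D 1 X * w3 + D 2 X * w1)
  have fin : D 0 (D 1 (D 1 h)) * D 1 (D 2 h) - D 0 (D 1 (D 2 h)) * D 1 (D 1 h) = 0 := by
    apply cancelN
    apply cancelN
    linear_combination N * D 1 (D 2 h) * A2 - N * D 1 (D 1 h) * B2
      + (D 1 X * D 1 X - D 2 X * D 2 X) * (2 * (D 0 T * D 0 (D 0 T))) * hB
      - 2 * (D 1 X * D 2 X) * (2 * (D 0 T * D 0 (D 0 T))) * hA
  linear_combination fin

end Pool.Agent.Work.MP_d87c46_gt
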