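import Mathlib
import Pool.Agent.Work.MP_d87c46_gt.Defs
import Pool.Agent.Work.MP_d87c46_gt.SmoothAlg
import Pool.Agent.Work.MP_d87c46_gt.Rigid

open scoped ContDiff Topology Matrix
open TopologicalSpace Filter

namespace Pool.Agent.Work.MP_d87c46_gt

/-- Passing to the inverse metric. -/
lemma inverse_relation (J : Matrix (Fin 4) (Fin 4) ℝ) (h x N : ℝ) (hN : N ≠ 0)
    (hJ : Jᵀ * !![x ^ 2, 0, 0, 1; 0, 1, 0, 0; 0, 0, 1, 0; 1, 0, 0, 0] * J
      = N • !![h, 0, 0, 1; 0, 1, 0, 0; 0, 0, 1, 0; 1, 0, 0, 0]) :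
    J * !![0, 0, 0, 1; 0, 1, 0, 0; 0, 0, 1, 0; 1, 0, 0, -h] * Jᵀ
      = N • !![0, 0, 0, 1; 0, 1, 0, 0; 0, 0, 1, 0; 1, 0, 0, -x ^ 2] := by
  set Gt : Matrix (Fin 4) (Fin 4) ℝ := !![x ^ 2, 0, 0, 1; 0, 1, 0, 0; 0, 0, 1, 0; 1, 0, 0, 0]
    with hGt
  set Gm : Matrix (Fin 4) (Fin 4) ℝ := !![h, 0, 0, 1; 0, 1, 0, 0; 0, 0, 1, 0; 1, 0, 0, 0]
    with hGm
  set It : Matrix (Fin 4) (Fin 4) ℝ := !![0, 0, 0, 1; 0, 1, 0, 0; 0, 0, 1, 0; 1, 0, 0, -x ^ 2]
    with hIt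
  set Im : Matrix (Fin 4) (Fin 4) ℝ := !![0, 0, 0, 1; 0, 1, 0, 0; 0, 0, 1, 0; 1, 0, 0, -h]
    with hIm
  have h1 : Im * Gm = 1 := by
    rw [hIm, hGm]
    ext i j
    fin_cases i <;> fin_cases j <;> simp [Matrix.mul_apply, Fin.sum_univ_four]
  have h2 : Gt * It = 1 := by
    rw [hIt, hGt]
    ext i j
    fin_cases i <;> fin_cases j <;> simp [Matrix.mul_apply, Fin.sum_univ_four]
  have h3 : (N⁻¹ • (Im * Jᵀ * Gt)) * J = 1 := by
    rw [Matrix.smul_mul, Matrix.mul_assoc, Matrix.mul_assoc, ← Matrix.mul_assoc Jᵀ, hJ,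
      Matrix.mul_smul, h1, smul_smul, inv_mul_cancel₀ hN, one_smul]
  have h4 : J * (N⁻¹ • (Im * Jᵀ * Gt)) = 1 := mul_eq_one_comm.mp h3
  have h5 : J * Im * Jᵀ * Gt = N • 1 := by
    have h6 : N • (J * (N⁻¹ • (Im * Jᵀ * Gt))) = N • (1 : Matrix (Fin 4) (Fin 4) ℝ) := by rw [h4]
    rw [Matrix.mul_smul, smul_smul, mul_inv_cancel₀ hN, one_smul] at h6
    rw [← h6]
    simp only [Matrix.mul_assoc]
  calc J * Im * Jᵀ = J * Im * Jᵀ * (Gt * It) := by rw [h2, Matrix.mul_one]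
    _ = (J * Im * Jᵀ * Gt) * It := by simp only [Matrix.mul_assoc]
    _ = N • It := by rw [h5, Matrix.smul_mul, Matrix.one_mul]

/-- If a pp-wave with profile `h` (harmonic in `x, y`, independent of `z`), is near a point `p` at
which the Weyl tensor does not vanish, conformally isomorphic to an open subset of
`(ℝ⁴, g_pp)`, then at `p` the profile satisfies the following equations. -/
theorem rigid_of_conformal (h : R4 → ℝ) (hh : ContDiff ℝ ∞ h) (hz : ∀ q, pd 3 h q = 0)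
    (hharm : ∀ q, pd 1 (pd 1 h) q + pd 2 (pd 2 h) q = 0) (p : R4)
    (hW : pd 1 (pd 1 h) p ≠ 0 ∨ pd 1 (pd 2 h) p ≠ 0)
    (hiso : ConformallyIsomorphicNear (ppWave h) gpp p) :
    pd 1 (pd 1 (pd 1 h)) p = 0 ∧ pd 1 (pd 1 (pd 2 h)) p = 0 ∧
      pd 0 (pd 1 (pd 1 h)) p * pd 1 (pd 2 h) p = pd 0 (pd 1 (pd 2 h)) p * pd 1 (pd 1 h) p := by
  obtain ⟨U₀, F, -, φ, hU₀, hpU₀, hF, -, -, -, hφ, hφpos, hmetric⟩ := hiso
  -- shrink the neighbourhood
  have hsm : ∀ i j, ContDiff ℝ ∞ (pd i (pd j h)) := by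
    intro i j
    rw [contDiff_iff_contDiffAt]
    intro q
    exact contDiffAt_pd (contDiffAt_pd hh.contDiffAt j) i
  let V : Set R4 := {q | pd 1 (pd 1 h) q ≠ 0 ∨ pd 1 (pd 2 h) q ≠ 0}
  have hV : IsOpen V := by
    have h1 : IsOpen {q | pd 1 (pd 1 h) q ≠ 0} := isOpen_ne_fun (hsm 1 1).continuous
      continuous_const
    have h2 : IsOpen {q | pd 1 (pd 2 h) q ≠ 0} := isOpen_ne_fun (hsm 1 2).continuous
      continuous_const
    exact h1.union h2
  let U : Opens R4 := ⟨U₀ ∩ V, hU₀.inter hV⟩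
  have hUU₀ : ∀ q ∈ U, q ∈ U₀ := fun q hq => hq.1
  have hpU : p ∈ U := ⟨hpU₀, hW⟩
  have hFU : ∀ a, ContDiffOn ℝ ∞ (fun q => F q a) U := fun a =>
    (contDiffOn_pi.mp hF a).mono hUU₀
  have hφU : ContDiffOn ℝ ∞ φ U := hφ.mono hUU₀
  have hhU : ContDiffOn ℝ ∞ h U := hh.contDiffOn
  have hNpos : ∀ q ∈ U, 0 < Real.exp (√2 * F q 0) * φ q ^ 2 := fun q hq =>
    mul_pos (Real.exp_pos _) (pow_pos (hφpos q hq.1) 2)
  have hNU : ContDiffOn ℝ ∞ (fun q => Real.exp (√2 * F q 0) * φ q ^ 2) U :=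
    ((contDiffOn_const.mul (hFU 0)).exp).mul (hφU.pow 2)
  have hMU : ContDiffOn ℝ ∞ (fun q => (Real.exp (√2 * F q 0) * φ q ^ 2)⁻¹) U :=
    hNU.inv fun q hq => (hNpos q hq).ne'
  let T : SA U := toSA U _ (hFU 0)
  let X : SA U := toSA U _ (hFU 1)
  let Y : SA U := toSA U _ (hFU 2)
  let Z : SA U := toSA U _ (hFU 3)
  let N : SA U := toSA U _ hNU
  let M : SA U := toSA U _ hMU
  let H : SA U := toSA U _ hhU
  have dT : ∀ i (q : U), (dd U i T).1 q = pd i (fun r => F r 0) q := fun i q => by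
    rw [dd_toSA]; rfl
  have dX : ∀ i (q : U), (dd U i X).1 q = pd i (fun r => F r 1) q := fun i q => by
    rw [dd_toSA]; rfl
  have dY : ∀ i (q : U), (dd U i Y).1 q = pd i (fun r => F r 2) q := fun i q => by
    rw [dd_toSA]; rfl
  have dZ : ∀ i (q : U), (dd U i Z).1 q = pd i (fun r => F r 3) q := fun i q => by
    rw [dd_toSA]; rfl
  have dH1 : ∀ i (q : U), (dd U i H).1 q = pd i h q := fun i q => by
    rw [dd_toSA]; rfl
  have dH2 : ∀ i j (q : U), (dd U i (dd U j H)).1 q = pd i (pd j h) q := fun i j q => by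
    rw [dd_toSA, dd_toSA]; rfl
  have dH3 : ∀ i j k (q : U), (dd U i (dd U j (dd U k H))).1 q = pd i (pd j (pd k h)) q :=
    fun i j k q => by
      rw [dd_toSA, dd_toSA, dd_toSA]; rfl
  have hTv : ∀ q : U, T.1 q = F q 0 := fun q => rfl
  have hXv : ∀ q : U, X.1 q = F q 1 := fun q => rfl
  have hNv : ∀ q : U, N.1 q = Real.exp (√2 * F q 0) * φ q ^ 2 := fun q => rfl
  have hMv : ∀ q : U, M.1 q = (Real.exp (√2 * F q 0) * φ q ^ 2)⁻¹ := fun q => rfl
  have hHv : ∀ q : U, H.1 q = h q := fun q => rfl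
  have hNM : N * M = 1 := by
    ext q
    change N.1 q * M.1 q = 1
    rw [hNv, hMv]
    exact mul_inv_cancel₀ (hNpos q q.2).ne'
  -- the metric equations at each point
  have hmat : ∀ q : U, ∀ i j,
      F q 1 ^ 2 * (pd i (fun r => F r 0) q * pd j (fun r => F r 0) q)
      + pd i (fun r => F r 0) q * pd j (fun r => F r 3) q
      + pd j (fun r => F r 0) q * pd i (fun r => F r 3) q
      + pd i (fun r => F r 1) q * pd j (fun r => F r 1) q
      + pd i (fun r => F r 2) q * pd j (fun r => F r 2) q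
      = Real.exp (√2 * F q 0) * φ q ^ 2 * ppWave h q i j := by
    intro q i j
    have h1 := hmetric q (hUU₀ q q.2) i j
    rw [mul_assoc, ← h1]
    have hexp : Real.exp (√2 * F q 0) * Real.exp (-(√2 * F q 0)) = 1 := by
      rw [← Real.exp_add]; simp
    simp only [Fin.sum_univ_four, gpp, Matrix.smul_apply, smul_eq_mul]
    simp [Matrix.of_apply]
    linear_combination (-1) * (F q 1 ^ 2 * (pd i (fun r => F r 0) q * pd j (fun r => F r 0) q)
      + pd i (fun r => F r 0) q * pd j (fun r => F r 3) q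
      + pd j (fun r => F r 0) q * pd i (fun r => F r 3) q
      + pd i (fun r => F r 1) q * pd j (fun r => F r 1) q
      + pd i (fun r => F r 2) q * pd j (fun r => F r 2) q) * hexp
  have hppg : ∀ i j (q : U), (ppg H i j).1 q = ppWave h q i j := by
    intro i j q
    fin_cases i <;> fin_cases j <;> rfl
  have E : ∀ i j, X * X * (dd U i T * dd U j T) + dd U i T * dd U j Z + dd U j T * dd U i Z
      + dd U i X * dd U j X + dd U i Y * dd U j Y = N * ppg H i j := by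
    intro i j
    ext q
    have h1 := hmat q i j
    change X.1 q * X.1 q * ((dd U i T).1 q * (dd U j T).1 q) + (dd U i T).1 q * (dd U j Z).1 q
      + (dd U j T).1 q * (dd U i Z).1 q + (dd U i X).1 q * (dd U j X).1 q
      + (dd U i Y).1 q * (dd U j Y).1 q = N.1 q * (ppg H i j).1 q
    rw [hppg, dT, dT, dX, dX, dY, dY, dZ, dZ, hXv, hNv, ← h1]
    ring
  -- the inverse relations
  have hinv : ∀ q : U, ∀ a b : Fin 4,
      (pd 3 (fun r => F r a) q * pd 0 (fun r => F r b) q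
        + pd 1 (fun r => F r a) q * pd 1 (fun r => F r b) q
        + pd 2 (fun r => F r a) q * pd 2 (fun r => F r b) q
        + (pd 0 (fun r => F r a) q - h q * pd 3 (fun r => F r a) q) * pd 3 (fun r => F r b) q)
      = (Real.exp (√2 * F q 0) * φ q ^ 2) *
        (!![0, 0, 0, 1; 0, 1, 0, 0; 0, 0, 1, 0; 1, 0, 0, -(F q 1) ^ 2] :
          Matrix (Fin 4) (Fin 4) ℝ) a b := by
    intro q a b
    let J : Matrix (Fin 4) (Fin 4) ℝ := Matrix.of fun a i => pd i (fun r => F r a) q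
    have hJ : Jᵀ * !![F q 1 ^ 2, 0, 0, 1; 0, 1, 0, 0; 0, 0, 1, 0; 1, 0, 0, 0] * J
        = (Real.exp (√2 * F q 0) * φ q ^ 2) •
          !![h q, 0, 0, 1; 0, 1, 0, 0; 0, 0, 1, 0; 1, 0, 0, 0] := by
      ext i j
      have h1 := hmat q i j
      rw [Matrix.smul_apply, smul_eq_mul]
      change _ = _ * ppWave h q i j
      rw [← h1]
      simp [Matrix.mul_apply, Fin.sum_univ_four, J]
      ring
    have h2 := inverse_relation J (h q) (F q 1) _ (hNpos q q.2).ne' hJ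
    have h3 := congrFun (congrFun h2 a) b
    rw [Matrix.smul_apply, smul_eq_mul] at h3
    rw [← h3]
    simp [Matrix.mul_apply, Fin.sum_univ_four, J, -mul_eq_mul_right_iff, -mul_eq_mul_left_iff,
      -add_right_inj, -add_left_inj]
    ring
  have o1 : dd U 3 T * dd U 0 T + dd U 1 T * dd U 1 T + dd U 2 T * dd U 2 T
      + (dd U 0 T - H * dd U 3 T) * dd U 3 T = 0 := by
    ext q
    have h1 := hinv q 0 0
    change (dd U 3 T).1 q * (dd U 0 T).1 q + (dd U 1 T).1 q * (dd U 1 T).1 q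
      + (dd U 2 T).1 q * (dd U 2 T).1 q + ((dd U 0 T).1 q - H.1 q * (dd U 3 T).1 q)
      * (dd U 3 T).1 q = 0
    rw [dT, dT, dT, dT, hHv, h1]
    simp
  have o2 : dd U 3 T * dd U 0 X + dd U 1 T * dd U 1 X + dd U 2 T * dd U 2 X
      + (dd U 0 T - H * dd U 3 T) * dd U 3 X = 0 := by
    ext q
    have h1 := hinv q 0 1
    change (dd U 3 T).1 q * (dd U 0 X).1 q + (dd U 1 T).1 q * (dd U 1 X).1 q
      + (dd U 2 T).1 q * (dd U 2 X).1 q + ((dd U 0 T).1 q - H.1 q * (dd U 3 T).1 q)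
      * (dd U 3 X).1 q = 0
    rw [dT, dT, dT, dT, dX, dX, dX, dX, hHv, h1]
    simp
  have o3 : dd U 3 T * dd U 0 Y + dd U 1 T * dd U 1 Y + dd U 2 T * dd U 2 Y
      + (dd U 0 T - H * dd U 3 T) * dd U 3 Y = 0 := by
    ext q
    have h1 := hinv q 0 2
    change (dd U 3 T).1 q * (dd U 0 Y).1 q + (dd U 1 T).1 q * (dd U 1 Y).1 q
      + (dd U 2 T).1 q * (dd U 2 Y).1 q + ((dd U 0 T).1 q - H.1 q * (dd U 3 T).1 q)
      * (dd U 3 Y).1 q = 0
    rw [dT, dT, dT, dT, dY, dY, dY, dY, hHv, h1]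
    simp
  have o4 : dd U 3 T * dd U 0 Z + dd U 1 T * dd U 1 Z + dd U 2 T * dd U 2 Z
      + (dd U 0 T - H * dd U 3 T) * dd U 3 Z = N := by
    ext q
    have h1 := hinv q 0 3
    change (dd U 3 T).1 q * (dd U 0 Z).1 q + (dd U 1 T).1 q * (dd U 1 Z).1 q
      + (dd U 2 T).1 q * (dd U 2 Z).1 q + ((dd U 0 T).1 q - H.1 q * (dd U 3 T).1 q)
      * (dd U 3 Z).1 q = N.1 q
    rw [dT, dT, dT, dT, dZ, dZ, dZ, dZ, hHv, hNv, h1]
    simp
  have hz' : dd U 3 H = 0 := by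
    ext q
    change (dd U 3 H).1 q = 0
    rw [dH1, hz]
  have hharm' : dd U 1 (dd U 1 H) + dd U 2 (dd U 2 H) = 0 := by
    ext q
    change (dd U 1 (dd U 1 H)).1 q + (dd U 2 (dd U 2 H)).1 q = 0
    rw [dH2, dH2, hharm]
  have hreg : ∀ z : SA U, dd U 1 (dd U 1 H) * z = 0 → dd U 1 (dd U 2 H) * z = 0 → z = 0 := by
    intro z h1 h2
    ext q
    have k1 : (dd U 1 (dd U 1 H)).1 q * z.1 q = 0 := congrFun (congrArg Subtype.val h1) q
    have k2 : (dd U 1 (dd U 2 H)).1 q * z.1 q = 0 := congrFun (congrArg Subtype.val h2) q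
    rw [dH2] at k1 k2
    change z.1 q = 0
    rcases q.2.2 with hq | hq
    · exact (mul_eq_zero.mp k1).resolve_left hq
    · exact (mul_eq_zero.mp k2).resolve_left hq
  have hsq : ∀ z w : SA U, z * z + w * w = 0 → z = 0 ∧ w = 0 := by
    intro z w h1
    have k : ∀ q, z.1 q * z.1 q + w.1 q * w.1 q = 0 := fun q =>
      congrFun (congrArg Subtype.val h1) q
    constructor
    · ext q
      change z.1 q = 0
      nlinarith [k q, mul_self_nonneg (z.1 q), mul_self_nonneg (w.1 q)]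
    · ext q
      change w.1 q = 0
      nlinarith [k q, mul_self_nonneg (z.1 q), mul_self_nonneg (w.1 q)]
  obtain ⟨t1, t2, t3⟩ := T_only_t (dd U) (dd_comm U) T X Y Z N M H hNM E o1 o2 o3 o4 hz' hharm'
    hreg hsq
  obtain ⟨r1, r2, r3⟩ := profile_rigid (dd U) (dd_comm U) T X Y Z N M H hNM E hharm' t1 t2 t3 hsq
  refine ⟨?_, ?_, ?_⟩
  · have := congrFun (congrArg Subtype.val r1) ⟨p, hpU⟩
    rw [dH3] at this
    exact this
  · have := congrFun (congrArg Subtype.val r2) ⟨p, hpU⟩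
    rw [dH3] at this
    exact this
  · have k : (dd U 0 (dd U 1 (dd U 1 H))).1 ⟨p, hpU⟩ * (dd U 1 (dd U 2 H)).1 ⟨p, hpU⟩
        = (dd U 0 (dd U 1 (dd U 2 H))).1 ⟨p, hpU⟩ * (dd U 1 (dd U 1 H)).1 ⟨p, hpU⟩ :=
      congrFun (congrArg Subtype.val r3) ⟨p, hpU⟩
    rw [dH3, dH3, dH2, dH2] at k
    exact k

end Pool.Agent.Work.MP_d87c46_gt
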