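import Mathlib
import Pool.Agent.Work.MP_d87c46_gt.AE
import Pool.Agent.Work.MP_d87c46_gt.NonIso

open scoped ContDiff Topology Matrix

namespace Pool.Agent.Work.MP_d87c46_gt

lemma pd_addf (i : Fin 4) {f g : R4 → ℝ} {p : R4} (hf : DifferentiableAt ℝ f p)
    (hg : DifferentiableAt ℝ g p) : pd i (fun q => f q + g q) p = pd i f p + pd i g p := by
  simp only [pd]
  rw [fderiv_fun_add hf hg]
  rfl

lemma pd_subf (i : Fin 4) {f g : R4 → ℝ} {p : R4} (hf : DifferentiableAt ℝ f p)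
    (hg : DifferentiableAt ℝ g p) : pd i (fun q => f q - g q) p = pd i f p - pd i g p := by
  simp only [pd]
  rw [fderiv_fun_sub hf hg]
  rfl

lemma pd_mulf (i : Fin 4) {f g : R4 → ℝ} {p : R4} (hf : DifferentiableAt ℝ f p)
    (hg : DifferentiableAt ℝ g p) :
    pd i (fun q => f q * g q) p = f p * pd i g p + g p * pd i f p := by
  simp only [pd]
  rw [fderiv_fun_mul hf hg]
  rfl

lemma pd_cosf (i : Fin 4) (w : ℝ) (p : R4) :
    pd i (fun q => Real.cos (w * q 0)) p = -(Real.sin (w * p 0)) * (w * if i = 0 then 1 else 0) := by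
  have h1 : DifferentiableAt ℝ (fun q : R4 => w * q 0) p := by fun_prop
  rw [pd, fderiv_cos h1]
  have h2 : fderiv ℝ (fun q : R4 => w * q 0) p (Pi.single i 1) = w * if i = 0 then 1 else 0 := by
    have := pd_const_mul i w (f := fun q => q 0) (p := p) (by fun_prop)
    rw [pd_coord] at this
    exact this
  rw [_root_.smul_apply, h2, smul_eq_mul]

lemma pd_sinf (i : Fin 4) (w : ℝ) (p : R4) :
    pd i (fun q => Real.sin (w * q 0)) p = (Real.cos (w * p 0)) * (w * if i = 0 then 1 else 0) := by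
  have h1 : DifferentiableAt ℝ (fun q : R4 => w * q 0) p := by fun_prop
  rw [pd, fderiv_sin h1]
  have h2 : fderiv ℝ (fun q : R4 => w * q 0) p (Pi.single i 1) = w * if i = 0 then 1 else 0 := by
    have := pd_const_mul i w (f := fun q => q 0) (p := p) (by fun_prop)
    rw [pd_coord] at this
    exact this
  rw [_root_.smul_apply, h2, smul_eq_mul]

lemma rotProfile_eq (w : ℝ) : rotProfile w = fun p =>
    Real.cos (w * p 0) * (p 1 * p 1 - p 2 * p 2) - 2 * (Real.sin (w * p 0) * (p 1 * p 2)) := by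
  ext p
  rw [rotProfile]
  ring

lemma rot_smooth (w : ℝ) : ContDiff ℝ ∞ (rotProfile w) := by
  unfold rotProfile
  fun_prop

lemma rot_pd1 (w : ℝ) : pd 1 (rotProfile w) = fun p =>
    2 * (Real.cos (w * p 0) * p 1) - 2 * (Real.sin (w * p 0) * p 2) := by
  ext p
  rw [rotProfile_eq]
  simp (disch := fun_prop) only [pd_subf, pd_mulf, pd_const, pd_coord, pd_cosf, pd_sinf]
  simp
  ring

lemma rot_pd2 (w : ℝ) : pd 2 (rotProfile w) = fun p =>
    -(2 * (Real.cos (w * p 0) * p 2)) - 2 * (Real.sin (w * p 0) * p 1) := by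
  ext p
  rw [rotProfile_eq]
  simp (disch := fun_prop) only [pd_subf, pd_mulf, pd_const, pd_coord, pd_cosf, pd_sinf]
  simp
  ring

lemma rot_pd3 (w : ℝ) (p : R4) : pd 3 (rotProfile w) p = 0 := by
  rw [rotProfile_eq]
  simp (disch := fun_prop) only [pd_subf, pd_mulf, pd_const, pd_coord, pd_cosf, pd_sinf]
  simp

lemma pd_neg' (i : Fin 4) (f : R4 → ℝ) (p : R4) : pd i (fun q => -f q) p = -pd i f p := by
  simp only [pd]
  rw [fderiv_fun_neg]
  rfl

lemma rot_pd11 (w : ℝ) : pd 1 (pd 1 (rotProfile w)) = fun p => 2 * Real.cos (w * p 0) := by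
  ext p
  rw [rot_pd1]
  simp (disch := fun_prop) only [pd_subf, pd_mulf, pd_const, pd_coord, pd_cosf, pd_sinf]
  simp

lemma rot_pd22 (w : ℝ) : pd 2 (pd 2 (rotProfile w)) = fun p => -(2 * Real.cos (w * p 0)) := by
  ext p
  rw [rot_pd2]
  simp (disch := fun_prop) only [pd_subf, pd_mulf, pd_const, pd_coord, pd_cosf, pd_sinf, pd_neg']
  simp

lemma rot_pd12 (w : ℝ) : pd 1 (pd 2 (rotProfile w)) = fun p => -(2 * Real.sin (w * p 0)) := by
  ext p
  rw [rot_pd2]
  simp (disch := fun_prop) only [pd_subf, pd_mulf, pd_const, pd_coord, pd_cosf, pd_sinf, pd_neg']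
  simp

lemma rot_harm (w : ℝ) (p : R4) :
    pd 1 (pd 1 (rotProfile w)) p + pd 2 (pd 2 (rotProfile w)) p = 0 := by
  rw [rot_pd11, rot_pd22]
  ring

lemma rot_pd011 (w : ℝ) (p : R4) :
    pd 0 (pd 1 (pd 1 (rotProfile w))) p = -(2 * w * Real.sin (w * p 0)) := by
  rw [rot_pd11]
  simp (disch := fun_prop) only [pd_subf, pd_mulf, pd_const, pd_coord, pd_cosf, pd_sinf, pd_neg']
  simp
  ring

lemma rot_pd012 (w : ℝ) (p : R4) :
    pd 0 (pd 1 (pd 2 (rotProfile w))) p = -(2 * w * Real.cos (w * p 0)) := by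
  rw [rot_pd12]
  simp (disch := fun_prop) only [pd_subf, pd_mulf, pd_const, pd_coord, pd_cosf, pd_sinf, pd_neg']
  simp
  ring

lemma rot_weyl (w : ℝ) (p : R4) :
    pd 1 (pd 1 (rotProfile w)) p ≠ 0 ∨ pd 1 (pd 2 (rotProfile w)) p ≠ 0 := by
  rw [rot_pd11, rot_pd12]
  by_contra hcon
  push Not at hcon
  obtain ⟨h1, h2⟩ := hcon
  have h3 := Real.sin_sq_add_cos_sq (w * p 0)
  have h4 : Real.cos (w * p 0) = 0 := by linarith
  have h5 : Real.sin (w * p 0) = 0 := by linarith
  rw [h4, h5] at h3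
  norm_num at h3

/-- The almost Einstein scales form a two-dimensional space. -/
theorem finrank_ppWave (h : R4 → ℝ) (hh : ContDiff ℝ ∞ h) (hz : ∀ q, pd 3 h q = 0)
    (hharm : ∀ q, pd 1 (pd 1 h) q + pd 2 (pd 2 h) q = 0)
    (hW : ∀ q, pd 1 (pd 1 h) q ≠ 0 ∨ pd 1 (pd 2 h) q ≠ 0) :
    Module.finrank ℝ (almostEinsteinScales (ppWave h)) = 2 := by
  let b : Fin 2 → (R4 → ℝ) := ![fun _ => 1, fun p => p 0]
  have hspan : almostEinsteinScales (ppWave h) = Submodule.span ℝ (Set.range b) := by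
    ext σ
    change IsAlmostEinsteinScale (ppWave h) σ ↔ _
    rw [ae_iff h hh hz hharm hW]
    rw [Submodule.mem_span_range_iff_exists_fun]
    simp only [Fin.sum_univ_two]
    constructor
    · rintro ⟨c₀, c₁, rfl⟩
      refine ⟨![c₀, c₁], ?_⟩
      ext p
      simp [b]
    · rintro ⟨c, rfl⟩
      refine ⟨c 0, c 1, ?_⟩
      ext p
      simp [b]
  have hind : LinearIndependent ℝ b := by
    rw [Fintype.linearIndependent_iff]
    intro c hc
    simp only [Fin.sum_univ_two] at hc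
    have h0 := congrFun hc 0
    have h1 := congrFun hc (fun _ => 1)
    simp [b] at h0 h1
    intro i
    fin_cases i
    · exact h0
    · simp only [h0, zero_add] at h1; exact h1
  rw [hspan, finrank_span_eq_card hind]
  simp

theorem rot_not_conformal {w : ℝ} (hw : w ≠ 0) (p : R4) :
    ¬ ConformallyIsomorphicNear (ppWave (rotProfile w)) gpp p := by
  intro hiso
  obtain ⟨-, -, h3⟩ := rigid_of_conformal (rotProfile w) (rot_smooth w) (rot_pd3 w) (rot_harm w) p
    (rot_weyl w p) hiso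
  rw [rot_pd011, rot_pd012, rot_pd11, rot_pd12] at h3
  have h4 := Real.sin_sq_add_cos_sq (w * p 0)
  apply hw
  linear_combination (1 / 4) * h3 - w * h4

end Pool.Agent.Work.MP_d87c46_gt
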